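import Mathlib

set_option autoImplicit false

namespace Pool.Agent.Helper28.LCN

/-- A nonabelian normal subgroup `K` of a nilpotent group `H` does not centralize all abelian normal subgroups of
`H` contained in `K`. -/
theorem exists_abelian_normal {H : Type} [Group H] [Group.IsNilpotent H] (K : Subgroup H) [K.Normal]
    (hna : ∃ x ∈ K, ∃ y ∈ K, x * y ≠ y * x) :
    ∃ B : Subgroup H, B.Normal ∧ (∀ a ∈ B, ∀ b ∈ B, a * b = b * a) ∧ ∃ x ∈ B, ∃ y ∈ K, x * y ≠ y * x := by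
  classical
  obtain ⟨N, hN⟩ := Group.IsNilpotent.nilpotent H
  obtain ⟨x0, hx0, y0, hy0, hxy0⟩ := hna
  have hex : ∃ n, ∃ x ∈ K, x ∈ Subgroup.upperCentralSeries H n ∧ ∃ y ∈ K, x * y ≠ y * x :=
    ⟨N, x0, hx0, by rw [hN]; exact Subgroup.mem_top _, y0, hy0, hxy0⟩
  obtain ⟨x, hxK, hxU, y, hyK, hxy⟩ := Nat.find_spec hex
  have hmin := fun m (hm : m < Nat.find hex) => Nat.find_min hex hm
  have hn0 : Nat.find hex ≠ 0 := by
    intro h0
    rw [h0, Subgroup.upperCentralSeries_zero, Subgroup.mem_bot] at hxU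
    apply hxy
    rw [hxU, one_mul, mul_one]
  obtain ⟨m, hm⟩ := Nat.exists_eq_succ_of_ne_zero hn0
  rw [hm] at hxU
  have hm' := hmin m (by omega)
  have hcomm : ∀ z ∈ K, z ∈ Subgroup.upperCentralSeries H m → ∀ w ∈ K, z * w = w * z := by
    intro z hz hzU w hw
    by_contra hne
    exact hm' ⟨z, hz, hzU, w, hw, hne⟩
  -- the centre of K
  let Z : Set H := {z | z ∈ K ∧ ∀ w ∈ K, z * w = w * z}
  have hZc : ∀ z ∈ Z, ∀ h : H, h * z * h⁻¹ ∈ Z := by
    intro z hz h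
    refine ⟨Subgroup.Normal.conj_mem inferInstance z hz.1 h, fun w hw => ?_⟩
    have h1 : h⁻¹ * w * h ∈ K := by
      have := Subgroup.Normal.conj_mem (inferInstance : K.Normal) w hw h⁻¹
      simpa using this
    have h2 := hz.2 _ h1
    calc h * z * h⁻¹ * w = h * (z * (h⁻¹ * w * h)) * h⁻¹ := by group
      _ = h * ((h⁻¹ * w * h) * z) * h⁻¹ := by rw [h2]
      _ = w * (h * z * h⁻¹) := by group
  have hxconj : ∀ h : H, h * x * h⁻¹ * x⁻¹ ∈ Z := by
    intro h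
    have hK1 : h * x * h⁻¹ * x⁻¹ ∈ K :=
      K.mul_mem (Subgroup.Normal.conj_mem inferInstance x hxK h) (K.inv_mem hxK)
    refine ⟨hK1, hcomm _ hK1 ?_⟩
    have h1 : x * h * x⁻¹ * h⁻¹ ∈ Subgroup.upperCentralSeries H m :=
      (Subgroup.mem_upperCentralSeries_succ_iff.mp hxU) h
    have h2 := Subgroup.inv_mem _ h1
    have h3 : (x * h * x⁻¹ * h⁻¹)⁻¹ = h * x * h⁻¹ * x⁻¹ := by group
    rwa [h3] at h2
  let S : Set H := insert x Z
  have hSc : ∀ a ∈ S, ∀ b ∈ S, a * b = b * a := by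
    intro a ha b hb
    rcases ha with rfl | ha
    · rcases hb with rfl | hb
      · rfl
      · exact (hb.2 _ hxK).symm
    · rcases hb with rfl | hb
      · exact ha.2 _ hxK
      · exact ha.2 _ hb.1
  refine ⟨Subgroup.closure S, ⟨fun b hb h => ?_⟩, ?_, x, Subgroup.subset_closure (Or.inl rfl), y, hyK,
    hxy⟩
  · induction hb using Subgroup.closure_induction with
    | mem s hs =>
      rcases hs with rfl | hs
      · have h1 : h * s * h⁻¹ = (h * s * h⁻¹ * s⁻¹) * s := by group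
        rw [h1]
        exact Subgroup.mul_mem _ (Subgroup.subset_closure (Or.inr (hxconj h)))
          (Subgroup.subset_closure (Or.inl rfl))
      · exact Subgroup.subset_closure (Or.inr (hZc s hs h))
    | one => simp
    | mul a b _ _ iha ihb =>
      have h1 : h * (a * b) * h⁻¹ = (h * a * h⁻¹) * (h * b * h⁻¹) := by group
      rw [h1]; exact Subgroup.mul_mem _ iha ihb
    | inv a _ iha =>
      have h1 : h * a⁻¹ * h⁻¹ = (h * a * h⁻¹)⁻¹ := by group
      rw [h1]; exact Subgroup.inv_mem _ iha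
  · have h1 : ∀ b ∈ Subgroup.closure S, ∀ a ∈ S, a * b = b * a := by
      intro b hb a ha
      induction hb using Subgroup.closure_induction with
      | mem s hs => exact hSc a ha s hs
      | one => simp
      | mul c d _ _ ihc ihd => rw [← mul_assoc, ihc, mul_assoc, ihd, mul_assoc]
      | inv c _ ihc =>
        have h2 : c⁻¹ * (c * a) * c⁻¹ = c⁻¹ * (a * c) * c⁻¹ := by rw [ihc]
        have h3 : c⁻¹ * (c * a) * c⁻¹ = a * c⁻¹ := by group
        have h4 : c⁻¹ * (a * c) * c⁻¹ = c⁻¹ * a := by group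
        rw [← h3, h2, h4]
    intro a ha b hb
    induction ha using Subgroup.closure_induction with
    | mem s hs => exact h1 b hb s hs
    | one => simp
    | mul c d _ _ ihc ihd => rw [mul_assoc, ihd, ← mul_assoc, ihc, mul_assoc]
    | inv c _ ihc =>
      have h2 : c⁻¹ * (c * b) * c⁻¹ = c⁻¹ * (b * c) * c⁻¹ := by rw [ihc]
      have h3 : c⁻¹ * (c * b) * c⁻¹ = b * c⁻¹ := by group
      have h4 : c⁻¹ * (b * c) * c⁻¹ = c⁻¹ * b := by group
      rw [← h3, h2, h4]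

/-- The same inside an ambient group. -/
theorem exists_abelian_normal' {G : Type} [Group G] (H : Subgroup G) (hH : Group.IsNilpotent H) (K : Subgroup G)
    (hK : K ≤ H) (hKn : ∀ h ∈ H, ∀ k ∈ K, h * k * h⁻¹ ∈ K) (hna : ∃ x ∈ K, ∃ y ∈ K, x * y ≠ y * x) :
    ∃ B : Subgroup G, B ≤ H ∧ (∀ a ∈ B, ∀ b ∈ B, a * b = b * a) ∧ (∀ h ∈ H, ∀ b ∈ B, h * b * h⁻¹ ∈ B) ∧
      ∃ x ∈ B, ∃ y ∈ K, x * y ≠ y * x := by
  haveI := hH
  have hKn' : (K.subgroupOf H).Normal := by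
    refine ⟨fun k hk h => ?_⟩
    rw [Subgroup.mem_subgroupOf] at hk ⊢
    exact hKn h h.2 k hk
  obtain ⟨x0, hx0, y0, hy0, hxy0⟩ := hna
  obtain ⟨B, hBn, hBc, x, hxB, y, hy, hxy⟩ := exists_abelian_normal (H := H) (K.subgroupOf H)
    ⟨⟨x0, hK hx0⟩, hx0, ⟨y0, hK hy0⟩, hy0, fun h => hxy0 (by simpa using congrArg Subtype.val h)⟩
  refine ⟨B.map H.subtype, ?_, ?_, ?_, ?_⟩
  · rintro _ ⟨b, _, rfl⟩
    exact b.2
  · rintro _ ⟨a, ha, rfl⟩ _ ⟨b, hb, rfl⟩
    exact congrArg Subtype.val (hBc a ha b hb)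
  · rintro h hh _ ⟨b, hb, rfl⟩
    exact ⟨⟨h, hh⟩ * b * ⟨h, hh⟩⁻¹, hBn.conj_mem b hb ⟨h, hh⟩, rfl⟩
  · exact ⟨x, ⟨x, hxB, rfl⟩, y, hy, fun h => hxy (Subtype.ext h)⟩

end Pool.Agent.Helper28.LCN
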