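import Mathlib

/-! Copied from helper982's OpenCentralizer hand-in. -/

set_option autoImplicit false

namespace Pool.Agent.Helper28.LCN

open Subgroup
open scoped commutatorElement

/-- Every finitely generated subgroup is nilpotent. -/
def LocNilp (G : Type) [Group G] : Prop :=
  ∀ s : Finset G, Group.IsNilpotent (Subgroup.closure (s : Set G))

/-- No nontrivial element of finite order. -/
def TorsionFree (G : Type) [Group G] : Prop := ∀ g : G, ∀ n : ℕ, 0 < n → g ^ n = 1 → g = 1

section comm
variable {H : Type} [Group H]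

lemma comm_pow {a b : H} (h : Commute ⁅a, b⁆ a) (e : ℕ) : ⁅a, b⁆ ^ e = ⁅a ^ e, b⁆ := by
  obtain ⟨c, hc⟩ : ∃ c, c = ⁅a, b⁆ := ⟨_, rfl⟩
  rw [← hc] at h ⊢
  have h1 : b * a * b⁻¹ = c⁻¹ * a := by
    rw [hc, commutatorElement_def]; group
  have h2 : b * a ^ e * b⁻¹ = c⁻¹ ^ e * a ^ e := by
    rw [← conj_pow, h1, Commute.mul_pow (h.inv_left)]
  have h3 : ⁅a ^ e, b⁆ = a ^ e * (b * a ^ e * b⁻¹)⁻¹ := by
    rw [commutatorElement_def]; group
  rw [h3, h2, mul_inv_rev, mul_inv_cancel_left, inv_pow, inv_inv]

/-- iterated commutators `[X, H, …, H]` -/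
def D (X : Subgroup H) : ℕ → Subgroup H
  | 0 => X
  | i + 1 => ⁅D X i, ⊤⁆

lemma D_normal (X : Subgroup H) [X.Normal] : ∀ i, (D X i).Normal
  | 0 => inferInstanceAs X.Normal
  | i + 1 => by
    have := D_normal X i
    unfold D
    infer_instance

lemma D_le (X : Subgroup H) : ∀ i, D X i ≤ (⊤ : Subgroup H).lowerCentralSeries i
  | 0 => le_top
  | i + 1 => commutator_mono (D_le X i) le_rfl

lemma exp_step (X : Subgroup H) [X.Normal] (e : ℕ) (hX : ∀ x ∈ X, x ^ e ∈ D X 1) :
    ∀ i, ∀ x ∈ D X i, x ^ e ∈ D X (i + 1) := by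
  intro i
  induction i with
  | zero => exact hX
  | succ i ih =>
    have hn2 := D_normal X (i + 2)
    let π := QuotientGroup.mk' (D X (i + 2))
    have hker : ∀ w, π w = 1 ↔ w ∈ D X (i + 2) := fun w => QuotientGroup.eq_one_iff w
    have hcen : ∀ w ∈ D X (i + 1), ∀ h : H, Commute (π w) (π h) := by
      intro w hw h
      have h1 : ⁅w, h⁆ ∈ D X (i + 2) := commutator_mem_commutator hw (mem_top h)
      have h2 : ⁅π w, π h⁆ = 1 := by
        rw [← map_commutatorElement]; exact (hker _).2 h1
      exact commutatorElement_eq_one_iff_commute.mp h2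
    have key : ∀ w ∈ D X (i + 1), w ∈ D X (i + 1) ∧ (π w) ^ e = 1 := by
      intro w hw
      have hw' : w ∈ closure {g | ∃ g₁ ∈ D X i, ∃ g₂ ∈ (⊤ : Subgroup H), ⁅g₁, g₂⁆ = g} := by
        have : D X (i + 1) = closure {g | ∃ g₁ ∈ D X i, ∃ g₂ ∈ (⊤ : Subgroup H), ⁅g₁, g₂⁆ = g} := commutator_def _ _
        rwa [this] at hw
      clear hw
      induction hw' using closure_induction with
      | mem x hx =>
        obtain ⟨u, hu, h, _, rfl⟩ := hx
        have h0 : ⁅u, h⁆ ∈ D X (i + 1) := commutator_mem_commutator hu (mem_top h)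
        refine ⟨h0, ?_⟩
        have h1 : Commute ⁅π u, π h⁆ (π u) := by
          rw [← map_commutatorElement]; exact hcen _ h0 u
        rw [map_commutatorElement, comm_pow h1, ← map_pow]
        exact commutatorElement_eq_one_iff_commute.mpr (hcen _ (ih u hu) h)
      | one => exact ⟨one_mem _, by simp⟩
      | mul x y _ _ hx hy =>
        refine ⟨mul_mem hx.1 hy.1, ?_⟩
        rw [map_mul, (hcen x hx.1 y).mul_pow, hx.2, hy.2, one_mul]
      | inv x _ hx =>
        refine ⟨inv_mem hx.1, ?_⟩
        rw [map_inv, inv_pow, hx.2, inv_one]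
    intro x hx
    rw [← hker, map_pow]
    exact (key x hx).2

lemma exp_bound [Group.IsNilpotent H] (X : Subgroup H) [X.Normal] (e : ℕ) (hX : ∀ x ∈ X, x ^ e ∈ D X 1) :
    ∃ c, ∀ x ∈ X, x ^ (e ^ c) = 1 := by
  obtain ⟨c, hc⟩ := Subgroup.nilpotent_iff_lowerCentralSeries.mp (inferInstance : Group.IsNilpotent H)
  have h : ∀ i, ∀ x ∈ X, x ^ (e ^ i) ∈ D X i := by
    intro i
    induction i with
    | zero => intro x hx; simpa [D] using hx
    | succ i ih =>
      intro x hx
      rw [pow_succ, pow_mul]
      exact exp_step X e hX i _ (ih x hx)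
  refine ⟨c, fun x hx => ?_⟩
  have := D_le X c (h c x hx)
  rw [hc] at this
  exact mem_bot.mp this

end comm

section nilp
variable {H : Type} [Group H]

/-- in a torsion-free nilpotent group, `c^n` commuting with `u` forces `c` commuting with `u` -/
lemma center_tf {K : Type} [Group K] [Group.IsNilpotent K] (htf : TorsionFree K) {x : K} {n : ℕ} (hn : 0 < n)
    (hx : x ^ n ∈ center K) : x ∈ center K := by
  -- by induction along the upper central series
  have key : ∀ i, ∀ v ∈ Subgroup.upperCentralSeries K i, Commute x v := by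
    intro i
    induction i with
    | zero =>
      intro v hv
      have : v = 1 := by simpa using hv
      rw [this]; exact Commute.one_right x
    | succ i ih =>
      intro v hv
      have h1 : ⁅v, x⁆ ∈ Subgroup.upperCentralSeries K i := by
        have := (Subgroup.mem_upperCentralSeries_succ_iff).mp hv x
        rw [commutatorElement_def]; exact this
      have h2 : Commute x ⁅v, x⁆ := ih _ h1
      have h3 : ⁅x, v⁆ = ⁅v, x⁆⁻¹ := (commutatorElement_inv v x).symm
      have h4 : Commute ⁅x, v⁆ x := by rw [h3]; exact h2.symm.inv_left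
      have h5 := comm_pow h4 n
      have h6 : ⁅x ^ n, v⁆ = 1 := commutatorElement_eq_one_iff_commute.mpr ((mem_center_iff.mp hx v).symm)
      rw [h6] at h5
      exact commutatorElement_eq_one_iff_commute.mp (htf _ n hn h5)
  obtain ⟨c, hc⟩ := (inferInstance : Group.IsNilpotent K).nilpotent'
  rw [mem_center_iff]
  intro g
  exact (key c g (by rw [hc]; exact mem_top g)).eq.symm

lemma root_comm_nilp (K : Type) [Group K] [Group.IsNilpotent K] : TorsionFree K →
    ∀ (c u : K) (n : ℕ), 0 < n → Commute (c ^ n) u → Commute c u := by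
  apply @Group.nilpotent_center_quotient_ind (fun K _ _ => TorsionFree K →
    ∀ (c u : K) (n : ℕ), 0 < n → Commute (c ^ n) u → Commute c u) K _ _
  · intro K _ _ _ c u n _ _
    exact Subsingleton.elim _ _
  · intro K _ _ ih htf c u n hn hcu
    have htf' : TorsionFree (K ⧸ center K) := by
      intro q m hm hq
      induction q using QuotientGroup.induction_on with
      | H x =>
        rw [← QuotientGroup.mk_pow, QuotientGroup.eq_one_iff] at hq
        rw [QuotientGroup.eq_one_iff]
        exact center_tf htf hm hq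
    let π := QuotientGroup.mk' (center K)
    have h1 : Commute (π c) (π u) := by
      apply ih htf' (π c) (π u) n hn
      rw [← map_pow]
      exact hcu.map π
    have h2 : ⁅c, u⁆ ∈ center K := by
      have : π ⁅c, u⁆ = 1 := by
        rw [map_commutatorElement]; exact commutatorElement_eq_one_iff_commute.mpr h1
      exact (QuotientGroup.eq_one_iff _).mp this
    have h3 : Commute ⁅c, u⁆ c := (mem_center_iff.mp h2 c).symm
    have h4 := comm_pow h3 n
    rw [commutatorElement_eq_one_iff_commute.mpr hcu] at h4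
    exact commutatorElement_eq_one_iff_commute.mp (htf _ n hn h4)

lemma TorsionFree.subgroup (h : TorsionFree H) (K : Subgroup H) : TorsionFree K := by
  intro g n hn hg
  apply Subtype.ext
  apply h _ n hn
  have := congrArg Subtype.val hg
  simpa using this

lemma root_comm (hl : LocNilp H) (htf : TorsionFree H) {c u : H} {n : ℕ} (hn : 0 < n)
    (h : Commute (c ^ n) u) : Commute c u := by
  classical
  have hK := hl {c, u}
  have hc : c ∈ closure (({c, u} : Finset H) : Set H) := subset_closure (by simp)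
  have hu : u ∈ closure (({c, u} : Finset H) : Set H) := subset_closure (by simp)
  have := root_comm_nilp (closure (({c, u} : Finset H) : Set H)) (htf.subgroup _) ⟨c, hc⟩ ⟨u, hu⟩ n hn
    (by apply Subtype.ext; simpa using h.eq)
  exact congrArg Subtype.val this.eq

lemma torsion_mul (hl : LocNilp H) {a b : H} {n m : ℕ} (hn : 0 < n) (hm : 0 < m) (ha : a ^ n = 1) (hb : b ^ m = 1) :
    ∃ k, 0 < k ∧ (a * b) ^ k = 1 := by
  classical
  let K := closure (({a, b} : Finset H) : Set H)
  have hK : Group.IsNilpotent K := hl {a, b}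
  have hexp : ∀ x ∈ (⊤ : Subgroup K), x ^ (n * m) ∈ D (⊤ : Subgroup K) 1 := by
    have key : ∀ x (hx : x ∈ K), (Abelianization.of (⟨x, hx⟩ : K)) ^ (n * m) = 1 := by
      intro x hx
      induction hx using closure_induction with
      | mem x hx =>
        have hx' : x = a ∨ x = b := by simpa using hx
        have : x ^ (n * m) = 1 := by
          rcases hx' with rfl | rfl
          · rw [pow_mul, ha, one_pow]
          · rw [mul_comm, pow_mul, hb, one_pow]
        rw [← map_pow]
        have e : (⟨x, subset_closure hx⟩ : K) ^ (n * m) = 1 := Subtype.ext (by simpa using this)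
        rw [e, map_one]
      | one =>
        have e : (⟨1, one_mem K⟩ : K) = 1 := rfl
        rw [e, map_one, one_pow]
      | mul x y hx hy h1 h2 =>
        have e : (⟨x * y, mul_mem hx hy⟩ : K) = ⟨x, hx⟩ * ⟨y, hy⟩ := rfl
        rw [e, map_mul, mul_pow, h1, h2, one_mul]
      | inv x hx h1 =>
        have e : (⟨x⁻¹, inv_mem hx⟩ : K) = ⟨x, hx⟩⁻¹ := rfl
        rw [e, map_inv, inv_pow, h1, inv_one]
    intro x _
    have h1 := key x.1 x.2
    rw [← map_pow] at h1
    have h2 : x ^ (n * m) ∈ (Abelianization.of (G := K)).ker := h1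
    rw [Abelianization.ker_of] at h2
    exact h2
  obtain ⟨c, hc⟩ := exp_bound (⊤ : Subgroup K) (n * m) hexp
  have ha' : a ∈ K := subset_closure (by simp)
  have hb' : b ∈ K := subset_closure (by simp)
  refine ⟨(n * m) ^ c, by positivity, ?_⟩
  have := congrArg Subtype.val (hc (⟨a, ha'⟩ * ⟨b, hb'⟩) (mem_top _))
  simpa using this

/-- the torsion subgroup of a locally nilpotent group -/
def tor (hl : LocNilp H) : Subgroup H where
  carrier := {x | ∃ n : ℕ, 0 < n ∧ x ^ n = 1}
  one_mem' := ⟨1, one_pos, by simp⟩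
  mul_mem' := by
    rintro a b ⟨n, hn, ha⟩ ⟨m, hm, hb⟩
    exact torsion_mul hl hn hm ha hb
  inv_mem' := by
    rintro a ⟨n, hn, ha⟩
    exact ⟨n, hn, by rw [inv_pow, ha, inv_one]⟩

lemma mem_tor (hl : LocNilp H) {x : H} : x ∈ tor hl ↔ ∃ n : ℕ, 0 < n ∧ x ^ n = 1 := Iff.rfl

lemma tor_normal (hl : LocNilp H) : (tor hl).Normal := ⟨by
  rintro x ⟨n, hn, hx⟩ g
  exact ⟨n, hn, by rw [conj_pow, hx]; simp⟩⟩

lemma LocNilp.of_surjective {Q : Type} [Group Q] (hl : LocNilp H) (f : H →* Q) (hf : Function.Surjective f) :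
    LocNilp Q := by
  classical
  intro s
  obtain ⟨t, ht⟩ : ∃ t : Finset H, t.image f = s := by
    choose g hg using hf
    refine ⟨s.image g, ?_⟩
    rw [Finset.image_image]
    have : f ∘ g = id := funext hg
    rw [this, Finset.image_id]
  have h1 := hl t
  have h2 : closure (s : Set Q) = (closure (t : Set H)).map f := by
    rw [← ht, MonoidHom.map_closure]; simp
  rw [h2]
  exact Group.nilpotent_of_surjective (f.subgroupMap (closure (t : Set H))) (f.subgroupMap_surjective _)

lemma tf_quot (hl : LocNilp H) : haveI := tor_normal hl; TorsionFree (H ⧸ tor hl) := by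
  have := tor_normal hl
  intro q m hm hq
  induction q using QuotientGroup.induction_on with
  | H x =>
    rw [← QuotientGroup.mk_pow, QuotientGroup.eq_one_iff] at hq
    rw [QuotientGroup.eq_one_iff]
    obtain ⟨n, hn, h⟩ := hq
    exact ⟨m * n, Nat.mul_pos hm hn, by rw [pow_mul]; exact h⟩

end nilp

section deep
variable {G : Type} [Group G]

/-- the normal closure of `y` in `K`, as a subgroup of `G` -/
def XK (y : G) (K : Subgroup G) : Subgroup G := closure {x | ∃ k ∈ K, x = k * y * k⁻¹}

lemma XK_mono (y : G) {K K' : Subgroup G} (h : K ≤ K') : XK y K ≤ XK y K' :=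
  closure_mono (by rintro x ⟨k, hk, rfl⟩; exact ⟨k, h hk, rfl⟩)

lemma extract_X [DecidableEq G] (y : G) {x : G} (hx : x ∈ normalClosure {y}) :
    ∃ s : Finset G, x ∈ XK y (closure (s : Set G)) := by
  unfold normalClosure at hx
  induction hx using closure_induction with
  | mem x hx =>
    rw [Group.mem_conjugatesOfSet_iff] at hx
    obtain ⟨a, ha, hc⟩ := hx
    rw [Set.mem_singleton_iff] at ha
    subst ha
    obtain ⟨g, hg⟩ := isConj_iff.mp hc
    refine ⟨{g}, subset_closure ⟨g, subset_closure (by simp), hg.symm⟩⟩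
  | one => exact ⟨∅, one_mem _⟩
  | mul a b _ _ ha hb =>
    obtain ⟨s, hs⟩ := ha
    obtain ⟨t, ht⟩ := hb
    refine ⟨s ∪ t, mul_mem (XK_mono y (closure_mono (by simp)) hs) (XK_mono y (closure_mono (by simp)) ht)⟩
  | inv a _ ha =>
    obtain ⟨s, hs⟩ := ha
    exact ⟨s, inv_mem hs⟩

lemma CK_mono (y : G) {K K' : Subgroup G} (h : K ≤ K') : ⁅XK y K, K⁆ ≤ ⁅XK y K', K'⁆ :=
  commutator_mono (XK_mono y h) h

lemma extract_C [DecidableEq G] (y : G) {w : G} (hw : w ∈ ⁅normalClosure {y}, (⊤ : Subgroup G)⁆) :
    ∃ s : Finset G, w ∈ ⁅XK y (closure (s : Set G)), closure (s : Set G)⁆ := by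
  rw [Subgroup.commutator_def] at hw
  induction hw using closure_induction with
  | mem x hx =>
    obtain ⟨u, hu, h, _, rfl⟩ := hx
    obtain ⟨s, hs⟩ := extract_X y hu
    refine ⟨insert h s, commutator_mem_commutator (XK_mono y (closure_mono (by simp)) hs) (subset_closure (by simp))⟩
  | one => exact ⟨∅, one_mem _⟩
  | mul a b _ _ ha hb =>
    obtain ⟨s, hs⟩ := ha
    obtain ⟨t, ht⟩ := hb
    refine ⟨s ∪ t, mul_mem (CK_mono y (closure_mono (by simp)) hs) (CK_mono y (closure_mono (by simp)) ht)⟩
  | inv a _ ha =>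
    obtain ⟨s, hs⟩ := ha
    exact ⟨s, inv_mem hs⟩

lemma eq_one_of_pow_mem (hl : LocNilp G) (htf : TorsionFree G) {y : G} {n : ℕ} (hn : 0 < n)
    (h : y ^ n ∈ ⁅normalClosure {y}, (⊤ : Subgroup G)⁆) : y = 1 := by
  classical
  obtain ⟨s, hs⟩ := extract_C y h
  have hs' := CK_mono y (closure_mono (show (s : Set G) ⊆ ((insert y s : Finset G) : Set G) by simp)) hs
  let K := closure ((insert y s : Finset G) : Set G)
  have hK : Group.IsNilpotent K := hl (insert y s)
  have hyK : y ∈ K := subset_closure (by simp)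
  let y' : K := ⟨y, hyK⟩
  let X := normalClosure {y'}
  have hX : XK y K ≤ X.map K.subtype := by
    unfold XK
    rw [closure_le]
    rintro x ⟨k, hk, rfl⟩
    refine ⟨⟨k, hk⟩ * y' * ⟨k, hk⟩⁻¹, ?_, rfl⟩
    exact (normalClosure_normal (s := {y'})).conj_mem _ (subset_normalClosure rfl) _
  have hC : ⁅XK y K, K⁆ ≤ (⁅X, (⊤ : Subgroup K)⁆).map K.subtype := by
    rw [map_commutator]
    refine commutator_mono hX ?_
    rw [← MonoidHom.range_eq_map, range_subtype]
  obtain ⟨w, hw, hwy⟩ := hC hs'
  have hyn : y' ^ n ∈ ⁅X, (⊤ : Subgroup K)⁆ := by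
    have : w = y' ^ n := Subtype.ext (by simpa using hwy)
    rw [← this]; exact hw
  have hexp : ∀ x ∈ X, x ^ n ∈ D X 1 := by
    have hD : D X 1 = ⁅X, (⊤ : Subgroup K)⁆ := rfl
    have : (D X 1).Normal := D_normal X 1
    let π := QuotientGroup.mk' (D X 1)
    have hker : ∀ w, π w = 1 ↔ w ∈ D X 1 := fun w => QuotientGroup.eq_one_iff w
    have hcen : ∀ w ∈ X, ∀ h : K, Commute (π w) (π h) := by
      intro w hw h
      have h1 : ⁅w, h⁆ ∈ D X 1 := commutator_mem_commutator hw (mem_top h)
      have h2 : ⁅π w, π h⁆ = 1 := by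
        rw [← map_commutatorElement]; exact (hker _).2 h1
      exact commutatorElement_eq_one_iff_commute.mp h2
    have hyX : y' ∈ X := subset_normalClosure rfl
    have key : ∀ x, x ∈ closure (Group.conjugatesOfSet {y'}) → x ∈ X ∧ (π x) ^ n = 1 := by
      intro x hx
      induction hx using closure_induction with
      | mem x hx =>
        refine ⟨subset_closure hx, ?_⟩
        rw [Group.mem_conjugatesOfSet_iff] at hx
        obtain ⟨a, ha, hc⟩ := hx
        rw [Set.mem_singleton_iff] at ha
        subst ha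
        obtain ⟨g, hg⟩ := isConj_iff.mp hc
        have h1 : π x = π y' := by
          rw [← hg, map_mul, map_mul, map_inv, ← (hcen y' hyX g).eq, mul_inv_cancel_right]
        rw [h1, ← map_pow]
        exact (hker _).2 hyn
      | one => exact ⟨one_mem _, by simp⟩
      | mul a b _ _ ha hb =>
        refine ⟨mul_mem ha.1 hb.1, ?_⟩
        rw [map_mul, (hcen a ha.1 b).mul_pow, ha.2, hb.2, one_mul]
      | inv a _ ha =>
        refine ⟨inv_mem ha.1, ?_⟩
        rw [map_inv, inv_pow, ha.2, inv_one]
    intro x hx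
    rw [← hker, map_pow]
    exact (key x hx).2
  obtain ⟨c, hc⟩ := exp_bound X n hexp
  have h1 := hc y' (subset_normalClosure rfl)
  exact htf y (n ^ c) (by positivity) (by simpa using congrArg Subtype.val h1)

end deep


section main
variable {G : Type} [Group G] [TopologicalSpace G] [IsTopologicalGroup G] [T2Space G]

/-- The conclusion of Q1: a closed normal isolated subgroup which is neither trivial nor whole. -/
def HasProperClosedIsolatedNormal (G : Type) [Group G] [TopologicalSpace G] : Prop :=
  ∃ H : Subgroup G, H.Normal ∧ IsClosed (H : Set G) ∧ H ≠ ⊥ ∧ H ≠ ⊤ ∧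
    ∀ g : G, ∀ n : ℕ, 0 < n → g ^ n ∈ H → g ∈ H

lemma of_center (hl : LocNilp G) (htf : TorsionFree G) (hab : ∃ a b : G, a * b ≠ b * a)
    {z : G} (hz : z ≠ 1) (hzc : z ∈ center G) : HasProperClosedIsolatedNormal G := by
  refine ⟨center G, inferInstance, ?_, ?_, ?_, ?_⟩
  · have : (center G : Set G) = ⋂ g : G, {x | g * x = x * g} := by
      ext x
      simp only [SetLike.mem_coe, mem_center_iff, Set.mem_iInter, Set.mem_ofPred_eq]
    rw [this]
    exact isClosed_iInter fun g => isClosed_eq (continuous_const.mul continuous_id) (continuous_id.mul continuous_const)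
  · intro h
    rw [h, mem_bot] at hzc
    exact hz hzc
  · intro h
    obtain ⟨a, b, hab⟩ := hab
    apply hab
    have : a ∈ center G := by rw [h]; exact mem_top a
    exact (mem_center_iff.mp this b).symm
  · intro g n hn hg
    rw [mem_center_iff] at hg ⊢
    intro h
    have : Commute g h := root_comm hl htf hn (show Commute (g ^ n) h from (hg h).symm)
    exact this.eq.symm

omit [T2Space G] in
theorem main_aux (hl : LocNilp G) (htf : TorsionFree G) {z g y : G} (hy : y = ⁅z, g⁆) (hy1 : y ≠ 1)
    (hop : IsOpen (centralizer {z} : Set G)) {R : Type} [Group R] (hlR : LocNilp R) (htR : TorsionFree R)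
    (π : G →* R)
    (hπ1 : ∀ w, π w = 1 ↔ ∃ n : ℕ, 0 < n ∧ w ^ n ∈ ⁅normalClosure {z}, normalClosure {y}⁆) :
    HasProperClosedIsolatedNormal G := by
  -- the subgroup
  let C : Subgroup G := (centralizer {r | ∃ h : G, r = π (h * z * h⁻¹)}).comap π
  have hC : ∀ c, c ∈ C ↔ ∀ h : G, Commute (π c) (π (h * z * h⁻¹)) := by
    intro c
    rw [mem_comap, mem_centralizer_iff]
    constructor
    · intro hc h
      exact (hc _ ⟨h, rfl⟩).symm
    · rintro hc r ⟨h, rfl⟩
      exact (hc h).eq.symm
  refine ⟨C, ?_, ?_, ?_, ?_, ?_⟩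
  · refine ⟨fun c hc k => ?_⟩
    rw [hC] at hc ⊢
    intro h
    have h1 := hc (k⁻¹ * h)
    have h2 : π (h * z * h⁻¹) = π k * π (k⁻¹ * h * z * (k⁻¹ * h)⁻¹) * (π k)⁻¹ := by
      rw [← map_inv, ← map_mul, ← map_mul]
      congr 1; group
    rw [h2, map_mul, map_mul, map_inv]
    exact (Commute.conj_iff _).mpr h1
  · have : (C : Set G) = ⋂ h : G, {c | π (c⁻¹ * (h * z * h⁻¹) * c) = π (h * z * h⁻¹)} := by
      ext c
      simp only [SetLike.mem_coe, Set.mem_iInter, Set.mem_ofPred_eq]
      rw [hC]
      apply forall_congr'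
      intro h
      obtain ⟨w, hw⟩ : ∃ w, w = h * z * h⁻¹ := ⟨_, rfl⟩
      rw [← hw, map_mul, map_mul, map_inv]
      constructor
      · intro hcomm
        rw [mul_assoc, ← hcomm.eq, inv_mul_cancel_left]
      · intro heq
        have := congrArg (fun t => π c * t) heq
        simp only [mul_assoc, mul_inv_cancel_left] at this
        exact this.symm
    rw [this]
    apply isClosed_iInter
    intro h
    -- the function `c ↦ c⁻¹ z^h c` is locally constant
    have hopen : IsOpen (centralizer {h * z * h⁻¹} : Set G) := by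
      have : (centralizer {h * z * h⁻¹} : Set G) = (fun x => h⁻¹ * x * h) ⁻¹' (centralizer {z} : Set G) := by
        ext x
        simp only [SetLike.mem_coe, Set.mem_preimage, mem_centralizer_singleton_iff]
        constructor
        · intro hx
          have := congrArg (fun t => h⁻¹ * t * h) hx
          simp only [mul_assoc, inv_mul_cancel_left, inv_mul_cancel, mul_one] at this ⊢
          exact this
        · intro hx
          have := congrArg (fun t => h * t * h⁻¹) hx
          simp only [mul_assoc, mul_inv_cancel_left, mul_inv_cancel, mul_one] at this ⊢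
          exact this
      rw [this]
      exact hop.preimage (by fun_prop)
    rw [← isOpen_compl_iff, isOpen_iff_mem_nhds]
    intro c hc
    -- the neighbourhood `centralizer * c`
    have hN : {x | x * c⁻¹ ∈ (centralizer {h * z * h⁻¹} : Set G)} ∈ nhds c := by
      apply (hopen.preimage (continuous_mul_const c⁻¹)).mem_nhds
      simp [one_mem]
    filter_upwards [hN] with x hx
    have hx' : (x * c⁻¹) * (h * z * h⁻¹) = (h * z * h⁻¹) * (x * c⁻¹) := by
      exact mem_centralizer_singleton_iff.mp hx
    have he : x⁻¹ * (h * z * h⁻¹) * x = c⁻¹ * (h * z * h⁻¹) * c := by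
      obtain ⟨k, hk⟩ : ∃ k, k = x * c⁻¹ := ⟨_, rfl⟩
      have hxk : x = k * c := by rw [hk]; group
      rw [← hk] at hx'
      rw [hxk, mul_inv_rev]
      calc c⁻¹ * k⁻¹ * (h * z * h⁻¹) * (k * c) = c⁻¹ * (k⁻¹ * ((h * z * h⁻¹) * k)) * c := by group
        _ = c⁻¹ * (k⁻¹ * (k * (h * z * h⁻¹))) * c := by rw [hx']
        _ = _ := by rw [inv_mul_cancel_left]
    rw [Set.mem_compl_iff, Set.mem_ofPred_eq] at hc ⊢
    rw [he]
    exact hc
  · intro hbot
    apply hy1
    have : y ∈ C := by
      rw [hC]
      intro h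
      have hz1 : h * z * h⁻¹ ∈ normalClosure {z} :=
        (normalClosure_normal (s := {z})).conj_mem z (subset_normalClosure (Set.mem_singleton z)) h
      have hy2 : y ∈ normalClosure {y} := subset_normalClosure (Set.mem_singleton y)
      have h1 : ⁅h * z * h⁻¹, y⁆ ∈ ⁅normalClosure {z}, normalClosure {y}⁆ := commutator_mem_commutator hz1 hy2
      have h2 : π ⁅h * z * h⁻¹, y⁆ = 1 := (hπ1 _).mpr ⟨1, one_pos, by rw [pow_one]; exact h1⟩
      rw [map_commutatorElement] at h2
      exact (commutatorElement_eq_one_iff_commute.mp h2).symm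
    rw [hbot, mem_bot] at this
    exact this
  · intro htop
    apply hy1
    have : g ∈ C := by rw [htop]; exact mem_top g
    rw [hC] at this
    have h1 := this 1
    rw [one_mul, inv_one, mul_one] at h1
    have h2 : π y = 1 := by
      rw [hy, map_commutatorElement]
      exact commutatorElement_eq_one_iff_commute.mpr h1.symm
    obtain ⟨n, hn, h3⟩ := (hπ1 y).mp h2
    have hSy : ⁅normalClosure {z}, normalClosure {y}⁆ ≤ ⁅normalClosure {y}, (⊤ : Subgroup G)⁆ := by
      rw [Subgroup.commutator_comm]
      exact commutator_mono le_rfl le_top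
    exact eq_one_of_pow_mem hl htf hn (hSy h3)
  · intro c n hn hc
    rw [hC] at hc ⊢
    intro h
    have h1 := hc h
    rw [map_pow] at h1
    exact root_comm hlR htR hn h1

theorem main (hl : LocNilp G) (htf : TorsionFree G) (hab : ∃ a b : G, a * b ≠ b * a)
    {z : G} (hz : z ≠ 1) (hop : IsOpen (centralizer {z} : Set G)) : HasProperClosedIsolatedNormal G := by
  by_cases hzc : z ∈ center G
  · exact of_center hl htf hab hz hzc
  rw [mem_center_iff] at hzc
  push Not at hzc
  obtain ⟨g, hg⟩ := hzc
  obtain ⟨y, hy⟩ : ∃ y, y = ⁅z, g⁆ := ⟨_, rfl⟩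
  have hy1 : y ≠ 1 := by
    rw [hy]
    intro h
    exact hg (commutatorElement_eq_one_iff_commute.mp h).eq.symm
  have hSn : (⁅normalClosure {z}, normalClosure {y}⁆ : Subgroup G).Normal := inferInstance
  obtain ⟨S, hS⟩ : ∃ S : Subgroup G, S = ⁅normalClosure {z}, normalClosure {y}⁆ := ⟨_, rfl⟩
  rw [← hS] at hSn
  have hlQ : LocNilp (G ⧸ S) := hl.of_surjective (QuotientGroup.mk' S) (QuotientGroup.mk'_surjective S)
  have hTn : (tor hlQ).Normal := tor_normal hlQ
  have hlR : LocNilp ((G ⧸ S) ⧸ tor hlQ) :=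
    hlQ.of_surjective (QuotientGroup.mk' (tor hlQ)) (QuotientGroup.mk'_surjective _)
  have htR : TorsionFree ((G ⧸ S) ⧸ tor hlQ) := tf_quot hlQ
  refine main_aux hl htf hy hy1 hop hlR htR ((QuotientGroup.mk' (tor hlQ)).comp (QuotientGroup.mk' S)) ?_
  intro w
  rw [← hS]
  have h1 : ((QuotientGroup.mk' (tor hlQ)).comp (QuotientGroup.mk' S)) w = 1 ↔ (QuotientGroup.mk' S w) ∈ tor hlQ :=
    QuotientGroup.eq_one_iff _
  rw [h1, mem_tor]
  constructor
  · rintro ⟨n, hn, h⟩
    refine ⟨n, hn, ?_⟩
    rw [← map_pow] at h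
    exact (QuotientGroup.eq_one_iff _).mp h
  · rintro ⟨n, hn, h⟩
    refine ⟨n, hn, ?_⟩
    rw [← map_pow]
    exact (QuotientGroup.eq_one_iff _).mpr h

/-- If some subgroup generated by finitely many elements has open closure, the conclusion holds. -/
theorem of_fg (hl : LocNilp G) (htf : TorsionFree G) (hab : ∃ a b : G, a * b ≠ b * a)
    (s : Finset G) (hs : IsOpen ((Subgroup.closure (s : Set G)).topologicalClosure : Set G)) :
    HasProperClosedIsolatedNormal G := by
  classical
  by_cases hbot : Subgroup.closure (s : Set G) = ⊥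
  · -- the group is discrete
    obtain ⟨a, b, hab'⟩ := id hab
    have ha : a ≠ 1 := by rintro rfl; simp at hab'
    have hcl : ((Subgroup.closure (s : Set G)).topologicalClosure : Set G) = {1} := by
      rw [hbot, topologicalClosure_coe, coe_bot]
      exact closure_singleton
    rw [hcl] at hs
    have hd : DiscreteTopology G := discreteTopology_of_isOpen_singleton_one hs
    exact main hl htf hab ha (isOpen_discrete _)
  · have hnil : Group.IsNilpotent (Subgroup.closure (s : Set G)) := hl s
    have hnt : Nontrivial (Subgroup.closure (s : Set G)) := (nontrivial_iff_ne_bot _).mpr hbot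
    have hc : center (Subgroup.closure (s : Set G)) ≠ ⊥ := Group.IsNilpotent.center_ne_bot _
    obtain ⟨z, hz, hz1⟩ : ∃ z : Subgroup.closure (s : Set G), z ∈ center (Subgroup.closure (s : Set G)) ∧ z ≠ 1 := by
      by_contra hcon
      push Not at hcon
      exact hc ((eq_bot_iff_forall _).mpr hcon)
    have hz1' : (z : G) ≠ 1 := fun h => hz1 (Subtype.ext h)
    refine main hl htf hab hz1' ?_
    -- the centralizer is closed and contains the dense subgroup
    have hle : (Subgroup.closure (s : Set G)).topologicalClosure ≤ centralizer {(z : G)} := by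
      apply Subgroup.topologicalClosure_minimal
      · intro x hx
        rw [mem_centralizer_singleton_iff]
        have := mem_center_iff.mp hz ⟨x, hx⟩
        exact congrArg Subtype.val this
      · have : (centralizer {(z : G)} : Set G) = {x : G | x * z = z * x} := by
          ext x
          exact mem_centralizer_singleton_iff
        rw [this]
        exact isClosed_eq (continuous_mul_const _) (continuous_const_mul _)
    exact Subgroup.isOpen_mono hle hs

/-- An open subgroup with nontrivial centre gives an open centralizer. -/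
theorem of_open_subgroup (hl : LocNilp G) (htf : TorsionFree G) (hab : ∃ a b : G, a * b ≠ b * a)
    (U : Subgroup G) (hU : IsOpen (U : Set G)) (hc : ∃ z ∈ U, z ≠ 1 ∧ ∀ u ∈ U, u * z = z * u) :
    HasProperClosedIsolatedNormal G := by
  obtain ⟨z, hzU, hz1, hz⟩ := hc
  refine main hl htf hab hz1 (Subgroup.isOpen_mono (show U ≤ centralizer {z} from ?_) hU)
  intro x hx
  exact mem_centralizer_singleton_iff.mpr (hz x hx)

end main



end Pool.Agent.Helper28.LCN
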