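import Mathlib

set_option autoImplicit false

namespace Pool.Agent.Helper28.LCN

open scoped commutatorElement

/-- iterated commutator `[x_{i₁},[x_{i₂},…,[x_{i_N},a]…]]` -/
def E {G ι : Type} [Group G] (x : ι → G) (w : List ι) (a : G) : G := w.foldr (fun i b => ⁅x i, b⁆) a

noncomputable section

open Classical in
def pf {G : Type} [Group G] (H : Subgroup G) (φ : G → ℚ) (v : G) (g : G) : ℚ :=
  if g ∈ H then φ (g * v * g⁻¹) else 0

def Phi {G : Type} [Group G] (H : Subgroup G) (φ : G → ℚ) (v : G) : MonoidAlgebra ℚ G →ₗ[ℚ] ℚ :=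
  (Finsupp.linearCombination ℚ (pf H φ v)) ∘ₗ (MonoidAlgebra.coeffLinearEquiv ℚ).toLinearMap

theorem Phi_of {G : Type} [Group G] (H : Subgroup G) (φ : G → ℚ) (v g : G) :
    Phi H φ v (MonoidAlgebra.of ℚ G g) = pf H φ v g := by
  simp [Phi, MonoidAlgebra.of]

theorem Phi_of_mul {G : Type} [Group G] (H : Subgroup G) (φ : G → ℚ) (v g : G) (hg : g ∈ H)
    (r : MonoidAlgebra ℚ G) :
    Phi H φ v (MonoidAlgebra.of ℚ G g * r) = Phi H (fun u => φ (g * u * g⁻¹)) v r := by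
  induction r using MonoidAlgebra.induction_on with
  | of m =>
    rw [← map_mul, Phi_of, Phi_of]
    unfold pf
    by_cases hm : m ∈ H
    · rw [if_pos (H.mul_mem hg hm), if_pos hm]
      congr 1
      group
    · rw [if_neg (fun h => hm ((H.mul_mem_cancel_left hg).1 h)), if_neg hm]
  | add x y hx hy => rw [mul_add, map_add, map_add, hx, hy]
  | smul c x hx => rw [mul_smul_comm, map_smul, map_smul, hx]

theorem Phi_mul_of {G : Type} [Group G] (H : Subgroup G) (φ : G → ℚ) (v g : G) (hg : g ∈ H)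
    (r : MonoidAlgebra ℚ G) :
    Phi H φ v (r * MonoidAlgebra.of ℚ G g) = Phi H φ (g * v * g⁻¹) r := by
  induction r using MonoidAlgebra.induction_on with
  | of m =>
    rw [← map_mul, Phi_of, Phi_of]
    unfold pf
    by_cases hm : m ∈ H
    · rw [if_pos (H.mul_mem hm hg), if_pos hm]
      congr 1
      group
    · rw [if_neg (fun h => hm ((H.mul_mem_cancel_right hg).1 h)), if_neg hm]
  | add x y hx hy => rw [add_mul, map_add, map_add, hx, hy]
  | smul c x hx => rw [smul_mul_assoc, map_smul, map_smul, hx]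

theorem Phi_sub {G : Type} [Group G] (H : Subgroup G) (φ ψ : G → ℚ) (v : G)
    (r : MonoidAlgebra ℚ G) :
    Phi H φ v r - Phi H ψ v r = Phi H (fun u => φ u - ψ u) v r := by
  induction r using MonoidAlgebra.induction_on with
  | of m =>
    rw [Phi_of, Phi_of, Phi_of]
    unfold pf
    by_cases hm : m ∈ H
    · rw [if_pos hm, if_pos hm, if_pos hm]
    · rw [if_neg hm, if_neg hm, if_neg hm, sub_zero]
  | add x y hx hy => rw [map_add, map_add, map_add, ← hx, ← hy]; ring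
  | smul c x hx => rw [map_smul, map_smul, map_smul, ← hx, smul_sub]

def Kill {G : Type} [Group G] (r : MonoidAlgebra ℚ G) : Prop :=
  ∃ s : Finset G, ∀ H B : Subgroup G, (∀ g ∈ s, g ∈ H) → B ≤ H →
    (∀ a ∈ B, ∀ b ∈ B, a * b = b * a) → (∀ h ∈ H, ∀ b ∈ B, h * b * h⁻¹ ∈ B) →
    ∀ φ : G → ℚ, (∀ x ∈ B, ∀ y ∈ B, φ (x * y) = φ x + φ y) → ∀ v ∈ B, Phi H φ v r = 0

theorem Kill_zero {G : Type} [Group G] : Kill (0 : MonoidAlgebra ℚ G) :=
  ⟨∅, fun _ _ _ _ _ _ _ _ _ _ => map_zero _⟩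

theorem Kill_add {G : Type} [Group G] {r t : MonoidAlgebra ℚ G} (hr : Kill r) (ht : Kill t) :
    Kill (r + t) := by
  classical
  obtain ⟨s, hs⟩ := hr
  obtain ⟨s', hs'⟩ := ht
  refine ⟨s ∪ s', fun H B hH hB hab hn φ hφ v hv => ?_⟩
  rw [map_add, hs H B (fun g hg => hH g (Finset.mem_union_left _ hg)) hB hab hn φ hφ v hv,
    hs' H B (fun g hg => hH g (Finset.mem_union_right _ hg)) hB hab hn φ hφ v hv, add_zero]

theorem Kill_smul {G : Type} [Group G] {r : MonoidAlgebra ℚ G} (c : ℚ) (hr : Kill r) :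
    Kill (c • r) := by
  obtain ⟨s, hs⟩ := hr
  refine ⟨s, fun H B hH hB hab hn φ hφ v hv => ?_⟩
  rw [map_smul, hs H B hH hB hab hn φ hφ v hv, smul_zero]

theorem Kill_neg {G : Type} [Group G] {r : MonoidAlgebra ℚ G} (hr : Kill r) :
    Kill (-r) := by
  have := Kill_smul (-1) hr
  simpa using this

theorem conj_additive {G : Type} [Group G] (B : Subgroup G) (g : G)
    (hn : ∀ b ∈ B, g * b * g⁻¹ ∈ B) (φ : G → ℚ)
    (hφ : ∀ x ∈ B, ∀ y ∈ B, φ (x * y) = φ x + φ y) :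
    ∀ x ∈ B, ∀ y ∈ B, φ (g * (x * y) * g⁻¹) = φ (g * x * g⁻¹) + φ (g * y * g⁻¹) := by
  intro x hx y hy
  rw [← hφ _ (hn x hx) _ (hn y hy)]
  congr 1
  group

theorem Kill_mul_left {G : Type} [Group G] {r : MonoidAlgebra ℚ G} (a : MonoidAlgebra ℚ G)
    (hr : Kill r) : Kill (a * r) := by
  classical
  induction a using MonoidAlgebra.induction_on with
  | of m =>
    obtain ⟨s, hs⟩ := hr
    refine ⟨insert m s, fun H B hH hB hab hn φ hφ v hv => ?_⟩
    have hm : m ∈ H := hH m (Finset.mem_insert_self _ _)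
    rw [Phi_of_mul H φ v m hm]
    exact hs H B (fun g hg => hH g (Finset.mem_insert_of_mem hg)) hB hab hn _
      (conj_additive B m (hn m hm) φ hφ) v hv
  | add x y hx hy => rw [add_mul]; exact Kill_add hx hy
  | smul c x hx => rw [smul_mul_assoc]; exact Kill_smul c hx

theorem Kill_mul_right {G : Type} [Group G] {r : MonoidAlgebra ℚ G} (a : MonoidAlgebra ℚ G)
    (hr : Kill r) : Kill (r * a) := by
  classical
  induction a using MonoidAlgebra.induction_on with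
  | of m =>
    obtain ⟨s, hs⟩ := hr
    refine ⟨insert m s, fun H B hH hB hab hn φ hφ v hv => ?_⟩
    have hm : m ∈ H := hH m (Finset.mem_insert_self _ _)
    rw [Phi_mul_of H φ v m hm]
    exact hs H B (fun g hg => hH g (Finset.mem_insert_of_mem hg)) hB hab hn _ hφ _ (hn m hm v hv)
  | add x y hx hy => rw [mul_add]; exact Kill_add hx hy
  | smul c x hx => rw [mul_smul_comm]; exact Kill_smul c hx

/-- the ideal -/
def KI (G : Type) [Group G] : TwoSidedIdeal (MonoidAlgebra ℚ G) :=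
  TwoSidedIdeal.mk' {r | Kill r} Kill_zero (fun hx hy => Kill_add hx hy) (fun hx => Kill_neg hx)
    (fun {x _} hy => Kill_mul_left x hy) (fun {_ y} hx => Kill_mul_right y hx)

theorem mem_KI {G : Type} [Group G] (r : MonoidAlgebra ℚ G) : r ∈ KI G ↔ Kill r := by
  unfold KI
  rw [TwoSidedIdeal.mem_mk']
  rfl

theorem phi_one {G : Type} [Group G] (B : Subgroup G) (φ : G → ℚ)
    (hφ : ∀ x ∈ B, ∀ y ∈ B, φ (x * y) = φ x + φ y) : φ 1 = 0 := by
  have := hφ 1 B.one_mem 1 B.one_mem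
  rw [mul_one] at this
  linarith

theorem phi_inv {G : Type} [Group G] (B : Subgroup G) (φ : G → ℚ)
    (hφ : ∀ x ∈ B, ∀ y ∈ B, φ (x * y) = φ x + φ y) (b : G) (hb : b ∈ B) : φ b⁻¹ = - φ b := by
  have := hφ b hb b⁻¹ (B.inv_mem hb)
  rw [mul_inv_cancel, phi_one B φ hφ] at this
  linarith

theorem E_cons {G ι : Type} [Group G] (x : ι → G) (i : ι) (w : List ι) (a : G) :
    E x (i :: w) a = ⁅x i, E x w a⁆ := rfl

theorem E_mem {G ι : Type} [Group G] (x : ι → G) (H B : Subgroup G) (hx : ∀ i, x i ∈ H)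
    (hn : ∀ h ∈ H, ∀ b ∈ B, h * b * h⁻¹ ∈ B) (w : List ι) (a : G) (ha : a ∈ B) :
    E x w a ∈ B := by
  induction w with
  | nil => exact ha
  | cons i w ih =>
    rw [E_cons, commutatorElement_def]
    exact B.mul_mem (hn _ (hx i) _ ih) (B.inv_mem ih)

theorem Phi_prod {G ι : Type} [Group G] (x : ι → G) (H B : Subgroup G) (hx : ∀ i, x i ∈ H)
    (hn : ∀ h ∈ H, ∀ b ∈ B, h * b * h⁻¹ ∈ B) (v : G) (hv : v ∈ B) (w : List ι) :
    ∀ φ : G → ℚ, (∀ x ∈ B, ∀ y ∈ B, φ (x * y) = φ x + φ y) →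
    Phi H φ v ((w.map (fun i => MonoidAlgebra.of ℚ G (x i) - 1)).prod) = φ (E x w v) := by
  induction w with
  | nil =>
    intro φ hφ
    rw [List.map_nil, List.prod_nil, ← map_one (MonoidAlgebra.of ℚ G), Phi_of]
    unfold pf
    rw [if_pos H.one_mem]
    simp [E]
  | cons i w ih =>
    intro φ hφ
    rw [List.map_cons, List.prod_cons, sub_mul, one_mul, map_sub, Phi_of_mul H φ v (x i) (hx i),
      Phi_sub, ih]
    · rw [E_cons, commutatorElement_def]
      have he := E_mem x H B hx hn w v hv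
      rw [hφ _ (hn _ (hx i) _ he) _ (B.inv_mem he), phi_inv B φ hφ _ he]
      ring
    · intro a ha b hb
      have h1 := conj_additive B (x i) (hn _ (hx i)) φ hφ a ha b hb
      show φ (x i * (a * b) * (x i)⁻¹) - φ (a * b) = (φ (x i * a * (x i)⁻¹) - φ a) + (φ (x i * b * (x i)⁻¹) - φ b)
      rw [h1, hφ a ha b hb]
      ring

theorem E_map_succ {G : Type} [Group G] {k : ℕ} (g : Fin k → G) (v : G) (w : List (Fin k)) (a : G) :
    E (Fin.cons v g : Fin (k+1) → G) (w.map Fin.succ) a = E g w a := by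
  induction w with
  | nil => rfl
  | cons i w ih =>
    rw [List.map_cons, E_cons, E_cons, ih, Fin.cons_succ]

end

theorem exists_rep {G : Type} [Group G]
    (h1 : ∀ (B : Subgroup G), (∀ a ∈ B, ∀ b ∈ B, a * b = b * a) → ∀ b ∈ B, b ≠ 1 →
      ∃ φ : G → ℚ, (∀ x ∈ B, ∀ y ∈ B, φ (x * y) = φ x + φ y) ∧ φ b ≠ 0)
    (h2 : ∀ s : Finset G, ∃ H : Subgroup G, (∀ g ∈ s, g ∈ H) ∧ ∀ K : Subgroup G, K ≤ H →
      (∀ h ∈ H, ∀ k ∈ K, h * k * h⁻¹ ∈ K) → (∃ x ∈ K, ∃ y ∈ K, x * y ≠ y * x) →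
      ∃ B : Subgroup G, B ≤ H ∧ (∀ a ∈ B, ∀ b ∈ B, a * b = b * a) ∧ (∀ h ∈ H, ∀ b ∈ B, h * b * h⁻¹ ∈ B) ∧
        ∃ x ∈ B, ∃ y ∈ K, x * y ≠ y * x)
    (hcls : ∀ k : ℕ, ∃ N : ℕ, ∀ x : Fin k → G, ∀ w : List (Fin k), N ≤ w.length → ∀ i, E x w (x i) = 1) :
    ∃ (R : Type) (_ : Ring R) (_ : Algebra ℚ R) (ρ : G →* R),
      Submodule.span ℚ (Set.range ρ) = ⊤ ∧
      (∀ k : ℕ, ∃ N : ℕ, ∀ g : Fin k → G, ∀ w : List (Fin k), N ≤ w.length →
        (w.map (fun i => ρ (g i) - 1)).prod = 0) ∧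
      (∀ x y : G, ρ x = 1 → ρ y = 1 → x * y = y * x) := by
  classical
  refine ⟨(KI G).ringCon.Quotient, inferInstance, inferInstance,
    ((KI G).ringCon.mk' : MonoidAlgebra ℚ G →* (KI G).ringCon.Quotient).comp
      (MonoidAlgebra.of ℚ G), ?_, ?_, ?_⟩
  · rw [eq_top_iff]
    rintro q -
    obtain ⟨r, rfl⟩ := (KI G).ringCon.mkₐ_surjective (α := ℚ) q
    induction r using MonoidAlgebra.induction_on with
    | of m => exact Submodule.subset_span ⟨m, rfl⟩
    | add x y hx hy => rw [map_add]; exact Submodule.add_mem _ hx hy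
    | smul c x hx => rw [map_smul]; exact Submodule.smul_mem _ _ hx
  · intro k
    obtain ⟨N, hN⟩ := hcls (k + 1)
    refine ⟨N, fun g w hw => ?_⟩
    have e1 : (w.map (fun i => (((KI G).ringCon.mk' : MonoidAlgebra ℚ G →* (KI G).ringCon.Quotient).comp
      (MonoidAlgebra.of ℚ G)) (g i) - 1)).prod =
      (KI G).ringCon.mk' ((w.map (fun i => MonoidAlgebra.of ℚ G (g i) - 1)).prod) := by
      rw [map_list_prod, List.map_map]
      congr 1
    rw [e1]
    have hk : Kill ((w.map (fun i => MonoidAlgebra.of ℚ G (g i) - 1)).prod) := by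
      refine ⟨Finset.univ.image g, fun H B hH hB hab hn φ hφ v hv => ?_⟩
      have hx : ∀ i, g i ∈ H := fun i => hH _ (Finset.mem_image_of_mem _ (Finset.mem_univ i))
      rw [Phi_prod g H B hx hn v hv w φ hφ]
      have h := hN (Fin.cons v g : Fin (k+1) → G) (w.map Fin.succ) (by simpa using hw) 0
      rw [E_map_succ, Fin.cons_zero] at h
      rw [h]
      exact phi_one B φ hφ
    rw [← map_zero (KI G).ringCon.mk']
    refine (RingCon.eq _).2 ?_
    rw [TwoSidedIdeal.rel_iff, sub_zero, mem_KI]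
    exact hk
  · have key : ∀ x : G, (((KI G).ringCon.mk' : MonoidAlgebra ℚ G →* (KI G).ringCon.Quotient).comp
      (MonoidAlgebra.of ℚ G)) x = 1 → Kill (MonoidAlgebra.of ℚ G x - 1) := by
      intro x hx
      have h : (KI G).ringCon.mk' (MonoidAlgebra.of ℚ G x) = (KI G).ringCon.mk' 1 := by
        rw [map_one]; exact hx
      have h' := (RingCon.eq _).1 h
      rw [TwoSidedIdeal.rel_iff, mem_KI] at h'
      exact h'
    intro x y hx hy
    obtain ⟨sx, hsx⟩ := key x hx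
    obtain ⟨sy, hsy⟩ := key y hy
    obtain ⟨H, hH, hH2⟩ := h2 (sx ∪ sy ∪ {x, y})
    have hsxH : ∀ g ∈ sx, g ∈ H := fun g hg => hH g (by simp [hg])
    have hsyH : ∀ g ∈ sy, g ∈ H := fun g hg => hH g (by simp [hg])
    have hxH : x ∈ H := hH x (by simp)
    have hyH : y ∈ H := hH y (by simp)
    let K : Subgroup G :=
      { carrier := {h | h ∈ H ∧ ∀ B : Subgroup G, B ≤ H → (∀ a ∈ B, ∀ b ∈ B, a * b = b * a) →
          (∀ h ∈ H, ∀ b ∈ B, h * b * h⁻¹ ∈ B) → ∀ b ∈ B, h * b = b * h}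
        mul_mem' := by
          rintro a b ⟨ha, ha'⟩ ⟨hb, hb'⟩
          refine ⟨H.mul_mem ha hb, fun B hB hab hn c hc => ?_⟩
          rw [mul_assoc, hb' B hB hab hn c hc, ← mul_assoc, ha' B hB hab hn c hc, mul_assoc]
        one_mem' := ⟨H.one_mem, fun B hB hab hn c hc => by rw [one_mul, mul_one]⟩
        inv_mem' := by
          rintro a ⟨ha, ha'⟩
          refine ⟨H.inv_mem ha, fun B hB hab hn c hc => ?_⟩
          have h := ha' B hB hab hn c hc
          calc a⁻¹ * c = a⁻¹ * (c * a) * a⁻¹ := by group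
            _ = a⁻¹ * (a * c) * a⁻¹ := by rw [h]
            _ = c * a⁻¹ := by group }
    have hKH : K ≤ H := fun h hh => hh.1
    have hKn : ∀ h ∈ H, ∀ k ∈ K, h * k * h⁻¹ ∈ K := by
      rintro h hh k ⟨hk, hk'⟩
      refine ⟨H.mul_mem (H.mul_mem hh hk) (H.inv_mem hh), fun B hB hab hn c hc => ?_⟩
      have hc' : h⁻¹ * c * h ∈ B := by
        have := hn h⁻¹ (H.inv_mem hh) c hc
        rwa [inv_inv] at this
      have h3 := hk' B hB hab hn _ hc'
      calc h * k * h⁻¹ * c = h * (k * (h⁻¹ * c * h)) * h⁻¹ := by group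
        _ = h * ((h⁻¹ * c * h) * k) * h⁻¹ := by rw [h3]
        _ = c * (h * k * h⁻¹) := by group
    have hmem : ∀ z : G, z ∈ H → (∀ B : Subgroup G, B ≤ H → (∀ a ∈ B, ∀ b ∈ B, a * b = b * a) →
        (∀ h ∈ H, ∀ b ∈ B, h * b * h⁻¹ ∈ B) → ∀ φ : G → ℚ,
        (∀ x ∈ B, ∀ y ∈ B, φ (x * y) = φ x + φ y) → ∀ v ∈ B,
          Phi H φ v (MonoidAlgebra.of ℚ G z - 1) = 0) → z ∈ K := by
      intro z hz hkill
      refine ⟨hz, fun B hB hab hn c hc => ?_⟩
      by_contra hne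
      have hcB : z * c * z⁻¹ * c⁻¹ ∈ B := B.mul_mem (hn z hz c hc) (B.inv_mem hc)
      have hne' : z * c * z⁻¹ * c⁻¹ ≠ 1 := by
        intro h
        apply hne
        rw [mul_inv_eq_one, mul_inv_eq_iff_eq_mul] at h
        exact h
      obtain ⟨φ, hφ, hφ'⟩ := h1 B hab _ hcB hne'
      apply hφ'
      have h3 := hkill B hB hab hn φ hφ c hc
      rw [map_sub, ← map_one (MonoidAlgebra.of ℚ G), Phi_of, Phi_of] at h3
      unfold pf at h3
      rw [if_pos hz, if_pos H.one_mem] at h3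
      rw [hφ _ (hn z hz c hc) _ (B.inv_mem hc), phi_inv B φ hφ _ hc]
      simpa [sub_eq_add_neg] using h3
    have hxK : x ∈ K := hmem x hxH (fun B hB hab hn φ hφ v hv => hsx H B hsxH hB hab hn φ hφ v hv)
    have hyK : y ∈ K := hmem y hyH (fun B hB hab hn φ hφ v hv => hsy H B hsyH hB hab hn φ hφ v hv)
    by_contra hne
    obtain ⟨B, hB, hab, hn, x', hx', y', hy', hne'⟩ := hH2 K hKH hKn ⟨x, hxK, y, hyK, hne⟩
    exact hne' ((hy'.2 B hB hab hn x' hx').symm)

end Pool.Agent.Helper28.LCN
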