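import Pool.Agent.Helper28.LCN.Base

set_option autoImplicit false

namespace Pool.Agent.Helper28.LCN

open Subgroup
open scoped commutatorElement


/-- In a torsion-free nilpotent group generated by `s` and `h`, the class is at most the class of the subgroup
generated by `s` and `h ^ m`. -/
theorem root_class_aux (d : ℕ) : ∀ (Γ : Type) [Group Γ] [Group.IsNilpotent Γ], TorsionFree Γ →
    ∀ (s : Set Γ) (h : Γ) (m : ℕ), 0 < m → closure (insert h s) = (⊤ : Subgroup Γ) →
    (closure (insert (h ^ m) s)).lowerCentralSeries d = ⊥ → (⊤ : Subgroup Γ).lowerCentralSeries d = ⊥ := by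
  induction d with
  | zero =>
    intro Γ _ _ htf s h m hm hgen hK
    rw [Subgroup.lowerCentralSeries_zero] at hK ⊢
    rw [closure_eq_bot_iff] at hK
    have h1 : h = 1 := htf h m hm (hK (Set.mem_insert _ _))
    rw [← hgen, closure_eq_bot_iff]
    rintro x (rfl | hx)
    · exact h1
    · exact hK (Set.mem_insert_of_mem _ hx)
  | succ d ih =>
    intro Γ _ _ htf s h m hm hgen hK
    rw [Subgroup.lowerCentralSeries_succ, commutator_eq_bot_iff_le_centralizer] at hK
    have hcen : (closure (insert (h ^ m) s)).lowerCentralSeries d ≤ center Γ := by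
      intro z hz
      have hz' := hK hz
      rw [mem_centralizer_iff] at hz'
      have hh : Commute h z := by
        apply root_comm_nilp Γ htf h z m hm
        exact hz' _ (subset_closure (Set.mem_insert _ _))
      have htop : (⊤ : Subgroup Γ) ≤ centralizer {z} := by
        rw [← hgen, closure_le]
        rintro x (rfl | hx)
        · rw [SetLike.mem_coe, mem_centralizer_iff]
          rintro _ rfl
          exact hh.eq.symm
        · rw [SetLike.mem_coe, mem_centralizer_iff]
          rintro _ rfl
          exact (hz' x (subset_closure (Set.mem_insert_of_mem _ hx))).symm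
      rw [mem_center_iff]
      intro g
      have h2 := htop (mem_top g)
      rw [mem_centralizer_iff] at h2
      exact (h2 z rfl).symm
    let π := QuotientGroup.mk' (center Γ)
    have hπ : Function.Surjective π := QuotientGroup.mk'_surjective _
    have e1 : ((closure (insert (h ^ m) s)).map π).lowerCentralSeries d = ⊥ := by
      rw [← map_lowerCentralSeries, Subgroup.map_eq_bot_iff, QuotientGroup.ker_mk']
      exact hcen
    have e2 : (closure (insert (h ^ m) s)).map π = closure (insert (π h ^ m) (π '' s)) := by
      rw [MonoidHom.map_closure, Set.image_insert_eq, map_pow]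
    have htf' : TorsionFree (Γ ⧸ center Γ) := by
      intro q k hk hq
      induction q using QuotientGroup.induction_on with
      | H x =>
        rw [← QuotientGroup.mk_pow, QuotientGroup.eq_one_iff] at hq
        rw [QuotientGroup.eq_one_iff]
        exact center_tf htf hk hq
    have hgen' : closure (insert (π h) (π '' s)) = ⊤ := by
      rw [← Set.image_insert_eq, ← MonoidHom.map_closure, hgen, ← MonoidHom.range_eq_map,
        MonoidHom.range_eq_top]
      exact hπ
    have e3 := ih (Γ ⧸ center Γ) htf' (π '' s) (π h) m hm hgen' (by rw [← e2]; exact e1)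
    apply Subgroup.lowerCentralSeries_succ_eq_bot
    have e4 : ((⊤ : Subgroup Γ).lowerCentralSeries d).map π = ⊥ := by
      rw [map_lowerCentralSeries, ← MonoidHom.range_eq_map, MonoidHom.range_eq_top.2 hπ]
      exact e3
    rwa [Subgroup.map_eq_bot_iff, QuotientGroup.ker_mk'] at e4

/-- Adding a root does not increase the class. -/
theorem root_class {G : Type} [Group G] (hl : LocNilp G) (htf : TorsionFree G) (s : Finset G) (h : G) (m : ℕ)
    (hm : 0 < m) (d : ℕ) (hd : (closure (insert (h ^ m) (s : Set G))).lowerCentralSeries d = ⊥) :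
    (closure (insert h (s : Set G))).lowerCentralSeries d = ⊥ := by
  classical
  have hnil : Group.IsNilpotent (closure (insert h (s : Set G))) := by
    have := hl (insert h s)
    rwa [Finset.coe_insert] at this
  obtain ⟨L, hL⟩ : ∃ L : Subgroup G, L = closure (insert h (s : Set G)) := ⟨_, rfl⟩
  rw [← hL] at hnil ⊢
  have hhL : h ∈ L := by rw [hL]; exact subset_closure (Set.mem_insert _ _)
  have hsL : (s : Set G) ⊆ L := by
    intro x hx
    rw [hL]
    exact subset_closure (Set.mem_insert_of_mem _ hx)
  have hhm : h ^ m ∈ L := L.pow_mem hhL m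
  have himg : ∀ (x : G) (hx : x ∈ L), (closure (insert (⟨x, hx⟩ : L) (L.subtype ⁻¹' (s : Set G)))).map
      L.subtype = closure (insert x (s : Set G)) := by
    intro x hx
    rw [MonoidHom.map_closure, Set.image_insert_eq]
    congr 2
    ext y
    constructor
    · rintro ⟨z, hz, rfl⟩
      exact hz
    · intro hy
      exact ⟨⟨y, hsL hy⟩, hy, rfl⟩
  have hinj : Function.Injective L.subtype := L.subtype_injective
  have hgen : closure (insert (⟨h, hhL⟩ : L) (L.subtype ⁻¹' (s : Set G))) = ⊤ := by
    apply Subgroup.map_injective hinj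
    rw [himg h hhL, ← hL, ← MonoidHom.range_eq_map, Subgroup.range_subtype]
  have e3 : (closure (insert ((⟨h, hhL⟩ : L) ^ m)
      (L.subtype ⁻¹' (s : Set G)))).lowerCentralSeries d = ⊥ := by
    rw [← Subgroup.map_eq_bot_iff_of_injective _ hinj, map_lowerCentralSeries]
    have e : (⟨h, hhL⟩ : L) ^ m = ⟨h ^ m, hhm⟩ := rfl
    rw [e, himg (h ^ m) hhm]
    exact hd
  have e4 := root_class_aux d L (htf.subgroup L) _ _ m hm hgen e3
  rw [← top_subtype_lowerCentralSeries, e4, Subgroup.map_bot]

end Pool.Agent.Helper28.LCN
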