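import Mathlib

set_option autoImplicit false

namespace Pool.Agent.Helper28.LCN

open Topology Filter

variable {G : Type} [Group G] [TopologicalSpace G] [IsTopologicalGroup G]

/-- `g` has roots which have arbitrarily small powers -/
def Good (g : G) : Prop :=
  ∀ V ∈ 𝓝 (1 : G), ∃ h : G, (∃ m : ℕ, 0 < m ∧ h ^ m = g) ∧ ∃ r : ℕ, 0 < r ∧ h ^ r ∈ V

theorem good_of_compact (C : Set G) (hC : IsCompact C) (g : G)
    (h : ∀ N : ℕ, ∃ h : G, (∃ m : ℕ, 0 < m ∧ h ^ m = g) ∧ ∀ j ≤ N, h ^ j ∈ C) : Good g := by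
  classical
  intro V hV
  have h1 : Tendsto (fun p : G × G => p.1⁻¹ * p.2) (𝓝 (1, 1)) (𝓝 1) := by
    have : Continuous (fun p : G × G => p.1⁻¹ * p.2) := by fun_prop
    have h2 := this.tendsto (1, 1)
    simpa using h2
  have h2 := h1 hV
  rw [mem_map, nhds_prod_eq, mem_prod_same_iff] at h2
  obtain ⟨W, hW, hWV⟩ := h2
  have hWV' : ∀ w ∈ W, ∀ w' ∈ W, w⁻¹ * w' ∈ V := fun w hw w' hw' => hWV (Set.mk_mem_prod hw hw')
  obtain ⟨t, htC, htcov⟩ := hC.elim_nhds_subcover (fun c => (fun x => c⁻¹ * x) ⁻¹' W) (by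
    intro c _
    have h3 : Tendsto (fun x => c⁻¹ * x) (𝓝 c) (𝓝 1) := by
      have h4 : Continuous (fun x : G => c⁻¹ * x) := by fun_prop
      have h5 := h4.tendsto c
      simpa using h5
    exact h3 hW)
  obtain ⟨x, ⟨m, hm0, hm⟩, hx⟩ := h t.card
  have hc : ∀ j, ∃ c : G, j ≤ t.card → c ∈ t ∧ c⁻¹ * x ^ j ∈ W := by
    intro j
    by_cases hj : j ≤ t.card
    · have h3 := htcov (hx j hj)
      rw [Set.mem_iUnion₂] at h3
      obtain ⟨c, hct, hc⟩ := h3
      exact ⟨c, fun _ => ⟨hct, hc⟩⟩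
    · exact ⟨1, fun h => absurd h hj⟩
  choose c hc using hc
  obtain ⟨i, hi, j, hj, hne, heq⟩ := Finset.exists_ne_map_eq_of_card_lt_of_maps_to
    (s := Finset.range (t.card + 1)) (t := t) (by rw [Finset.card_range]; omega) (f := c) (by
      intro j hj
      have hj' : j < t.card + 1 := Finset.mem_range.1 hj
      exact (hc j (by omega)).1)
  rw [Finset.mem_range] at hi hj
  have key : ∀ i j, i ≤ t.card → j ≤ t.card → i < j → c i = c j → ∃ r : ℕ, 0 < r ∧ x ^ r ∈ V := by
    intro i j hi hj hij heq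
    refine ⟨j - i, by omega, ?_⟩
    have h3 := hWV' _ (hc i hi).2 _ (hc j hj).2
    have h4 : (x ^ i)⁻¹ * x ^ j = x ^ (j - i) := by
      rw [inv_mul_eq_iff_eq_mul, ← pow_add]
      congr 1
      omega
    rw [← heq] at h3
    have h5 : ((c i)⁻¹ * x ^ i)⁻¹ * ((c i)⁻¹ * x ^ j) = (x ^ i)⁻¹ * x ^ j := by group
    rw [h5, h4] at h3
    exact h3
  refine ⟨x, ⟨m, hm0, hm⟩, ?_⟩
  rcases lt_or_gt_of_ne hne with hlt | hlt
  · exact key i j (by omega) (by omega) hlt heq
  · exact key j i (by omega) (by omega) hlt heq.symm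

open scoped Pointwise in
theorem exists_good [LocallyCompactSpace G] [T2Space G] (hnd : ¬ IsOpen ({1} : Set G)) :
    ∃ a : G, a ≠ 1 ∧ Good a := by
  classical
  obtain ⟨C, hC, hC1⟩ := exists_compact_mem_nhds (1 : G)
  by_cases hcase : ∃ g : G, g ≠ 1 ∧ ∀ j : ℕ, g ^ j ∈ C
  · obtain ⟨g, hg1, hg⟩ := hcase
    exact ⟨g, hg1, good_of_compact C hC g (fun N => ⟨g, ⟨1, one_pos, pow_one g⟩, fun j _ => hg j⟩)⟩
  · push Not at hcase
    obtain ⟨U, hU⟩ : ∃ U : Set G, U = interior C := ⟨_, rfl⟩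
    have hUo : IsOpen U := by rw [hU]; exact isOpen_interior
    have hUC : U ⊆ C := by rw [hU]; exact interior_subset
    have h1U : (1 : G) ∈ U := by rw [hU]; exact mem_interior_iff_mem_nhds.2 hC1
    have h1C : (1 : G) ∈ C := hUC h1U
    have he : ∀ g : G, ∃ e : ℕ, g ≠ 1 → g ^ e ∉ U ∧ ∀ j < e, g ^ j ∈ U := by
      intro g
      by_cases hg : g = 1
      · exact ⟨0, fun h => absurd hg h⟩
      · obtain ⟨j, hj⟩ := hcase g hg
        have hex : ∃ j : ℕ, g ^ j ∉ U := ⟨j, fun h => hj (hUC h)⟩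
        refine ⟨Nat.find hex, fun _ => ⟨Nat.find_spec hex, fun j hj => ?_⟩⟩
        have := Nat.find_min hex hj
        rwa [not_not] at this
    choose e he using he
    have hne : (𝓝[≠] (1 : G)).NeBot := by
      rw [neBot_iff]
      intro h
      exact hnd ((isOpen_singleton_iff_punctured_nhds (1 : G)).2 h)
    obtain ⟨ω, hω⟩ : ∃ ω : Ultrafilter G, (ω : Filter G) ≤ 𝓝[≠] 1 :=
      ⟨Ultrafilter.of _, Ultrafilter.of_le _⟩
    have hω1 : ∀ᶠ g in (ω : Filter G), g ≠ 1 := hω self_mem_nhdsWithin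
    have hω2 : (ω : Filter G) ≤ 𝓝 1 := hω.trans nhdsWithin_le_nhds
    have hpow : ∀ i : ℕ, Tendsto (fun g : G => g ^ i) ω (𝓝 1) := by
      intro i
      have h1 := (continuous_pow i).tendsto (1 : G)
      rw [one_pow] at h1
      exact h1.mono_left hω2
    have hC2 : IsCompact (C * C) := hC.mul hC
    have hCC2 : C ⊆ C * C := by
      intro x hx
      exact ⟨x, hx, 1, h1C, mul_one x⟩
    have hF4 : ∀ᶠ g in (ω : Filter G), ∀ j ≤ e g, g ^ j ∈ C * C := by
      filter_upwards [hω1, hω2 hC1] with g hg1 hgC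
      intro j hj
      obtain ⟨h1, h2⟩ := he g hg1
      rcases Nat.lt_or_ge j (e g) with hlt | hge
      · exact hCC2 (hUC (h2 j hlt))
      · have hje : j = e g := by omega
        have he0 : e g ≠ 0 := by
          intro h0
          rw [h0, pow_zero] at h1
          exact h1 h1U
        refine ⟨g ^ (e g - 1), hUC (h2 _ (by omega)), g, hgC, ?_⟩
        show g ^ (e g - 1) * g = g ^ j
        rw [← pow_succ, hje]
        congr 1
        omega
    -- limits of powers
    have hlim : ∀ f : G → ℕ, (∀ g, f g ≤ e g) → ∃ x ∈ C * C, Tendsto (fun g => g ^ (f g)) ω (𝓝 x) := by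
      intro f hf
      obtain ⟨x, hx, hxl⟩ := hC2.ultrafilter_le_nhds' (ω.map (fun g => g ^ (f g))) (by
        rw [Ultrafilter.mem_map]
        filter_upwards [hF4] with g hg
        exact hg _ (hf g))
      exact ⟨x, hx, hxl⟩
    obtain ⟨a, haC, ha⟩ := hlim e (fun g => le_rfl)
    have haU : a ∉ U := by
      intro h
      have h1 := ha (hUo.mem_nhds h)
      have h2 : ∀ᶠ g in (ω : Filter G), g ^ (e g) ∈ U := h1
      obtain ⟨g, hg1, hg2⟩ := (h2.and hω1).exists
      exact (he g hg2).1 hg1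
    have ha1 : a ≠ 1 := by
      rintro rfl
      exact haU h1U
    refine ⟨a, ha1, good_of_compact (C * C) hC2 a ?_⟩
    intro N
    obtain ⟨M, hM⟩ : ∃ M, M = N + 1 := ⟨_, rfl⟩
    obtain ⟨x, hxC, hx⟩ := hlim (fun g => e g / M) (fun g => Nat.div_le_self _ _)
    have hpj : ∀ j : ℕ, Tendsto (fun g => g ^ (j * (e g / M))) ω (𝓝 (x ^ j)) := by
      intro j
      have h1 := ((continuous_pow j).tendsto x).comp hx
      refine h1.congr ?_
      intro g
      show (g ^ (e g / M)) ^ j = g ^ (j * (e g / M))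
      rw [← pow_mul, mul_comm]
    refine ⟨x, ⟨M, by omega, ?_⟩, ?_⟩
    · have hmod : Tendsto (fun g => g ^ (e g % M)) ω (𝓝 1) := by
        intro V hV
        have h1 : ∀ᶠ g in (ω : Filter G), ∀ i ∈ Finset.range M, g ^ i ∈ V := by
          rw [Filter.eventually_all_finset]
          intro i _
          exact hpow i hV
        rw [mem_map]
        filter_upwards [h1] with g hg
        exact hg _ (Finset.mem_range.2 (Nat.mod_lt _ (by omega)))
      have h2 := ha.mul hmod.inv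
      rw [inv_one, mul_one] at h2
      have h3 := hpj M
      have h4 : Tendsto (fun g => g ^ (M * (e g / M))) ω (𝓝 a) := by
        refine h2.congr ?_
        intro g
        show g ^ (e g) * (g ^ (e g % M))⁻¹ = g ^ (M * (e g / M))
        rw [mul_inv_eq_iff_eq_mul, ← pow_add, Nat.div_add_mod]
      exact tendsto_nhds_unique h3 h4
    · intro j hj
      apply hC2.isClosed.mem_of_tendsto (hpj j)
      filter_upwards [hF4] with g hg
      apply hg
      calc j * (e g / M) ≤ M * (e g / M) := Nat.mul_le_mul_right _ (by omega)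
        _ ≤ e g := Nat.mul_div_le _ _

end Pool.Agent.Helper28.LCN
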