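import Pool.Agent.Helper28.LCN.Base
import Pool.Agent.Helper28.LCN.GoodEl

set_option autoImplicit false

namespace Pool.Agent.Helper28.LCN

open Topology Filter


section aux

variable {G : Type} [Group G]

/-- multiply the coordinate `i` by `g` on the right -/
def TT {k : ℕ} (i : Fin k) (g : G) (x : Fin k → G) : Fin k → G := Function.update x i (x i * g)

theorem TT_TT {k : ℕ} (i : Fin k) (g g' : G) (x : Fin k → G) : TT i g' (TT i g x) = TT i (g * g') x := by
  simp [TT, mul_assoc]

theorem TT_one {k : ℕ} (i : Fin k) (x : Fin k → G) : TT i 1 x = x := by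
  simp [TT]

variable [TopologicalSpace G] [IsTopologicalGroup G]

theorem TT_cont1 {k : ℕ} (i : Fin k) (g : G) : Continuous (TT i g : (Fin k → G) → (Fin k → G)) :=
  continuous_id.update i ((continuous_apply i).mul continuous_const)

theorem TT_cont2 {k : ℕ} (i : Fin k) (x : Fin k → G) : Continuous (fun g : G => TT i g x) :=
  continuous_const.update i (continuous_const.mul continuous_id)

theorem aux_conj {k : ℕ} {F : Set (Fin k → G)} (hconj : ∀ x ∈ F, ∀ u : G, (fun i => u * x i * u⁻¹) ∈ F)
    {x : Fin k → G} (hx : x ∈ interior F) (u : G) : (fun i => u * x i * u⁻¹) ∈ interior F := by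
  have hc : Continuous (fun y : Fin k → G => (fun i => u⁻¹ * y i * u)) := by fun_prop
  have hW : IsOpen ((fun y : Fin k → G => (fun i => u⁻¹ * y i * u)) ⁻¹' interior F) :=
    isOpen_interior.preimage hc
  have hsub : (fun y : Fin k → G => (fun i => u⁻¹ * y i * u)) ⁻¹' interior F ⊆ F := by
    intro y hy
    have h1 := hconj _ (interior_subset hy) u
    have h2 : (fun i => u * (u⁻¹ * y i * u) * u⁻¹) = y := by
      funext i; group
    rwa [h2] at h1
  apply interior_maximal hsub hW
  show (fun i => u⁻¹ * (u * x i * u⁻¹) * u) ∈ interior F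
  have h2 : (fun i => u⁻¹ * (u * x i * u⁻¹) * u) = x := by
    funext i; group
  rw [h2]; exact hx

theorem aux_open {k : ℕ} {F : Set (Fin k → G)} {g : G} {i : Fin k}
    (h : ∀ x ∈ interior F, TT i g x ∈ F) {x : Fin k → G} (hx : x ∈ interior F) :
    TT i g x ∈ interior F := by
  have hW : IsOpen ((TT i g⁻¹) ⁻¹' interior F) := isOpen_interior.preimage (TT_cont1 i g⁻¹)
  have hsub : (TT i g⁻¹) ⁻¹' interior F ⊆ F := by
    intro y hy
    have h1 := h _ hy
    rwa [TT_TT, inv_mul_cancel, TT_one] at h1
  apply interior_maximal hsub hW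
  show TT i g⁻¹ (TT i g x) ∈ interior F
  rw [TT_TT, mul_inv_cancel, TT_one]; exact hx

/-- the subgroup of invariance -/
def Inv {k : ℕ} (F : Set (Fin k → G)) : Subgroup G where
  carrier := {g | ∀ x ∈ interior F, ∀ i, TT i g x ∈ F ∧ TT i g⁻¹ x ∈ F}
  one_mem' := by
    intro x hx i
    rw [inv_one, TT_one]
    exact ⟨interior_subset hx, interior_subset hx⟩
  mul_mem' := by
    intro g g' hg hg' x hx i
    constructor
    · rw [← TT_TT]
      exact (hg' _ (aux_open (fun x hx => (hg x hx i).1) hx) i).1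
    · rw [mul_inv_rev, ← TT_TT]
      exact (hg _ (aux_open (fun x hx => (hg' x hx i).2) hx) i).2
  inv_mem' := by
    intro g hg x hx i
    rw [inv_inv]
    exact ⟨(hg x hx i).2, (hg x hx i).1⟩

theorem mem_Inv {k : ℕ} (F : Set (Fin k → G)) (g : G) :
    g ∈ Inv F ↔ ∀ x ∈ interior F, ∀ i, TT i g x ∈ F ∧ TT i g⁻¹ x ∈ F := Iff.rfl

theorem Inv_closed {k : ℕ} (F : Set (Fin k → G)) (hF : IsClosed F) : IsClosed (Inv F : Set G) := by
  have : (Inv F : Set G) = ⋂ (x : Fin k → G) (_ : x ∈ interior F) (i : Fin k),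
      ((fun g : G => TT i g x) ⁻¹' F ∩ (fun g : G => TT i g⁻¹ x) ⁻¹' F) := by
    ext g
    simp [mem_Inv]
  rw [this]
  refine isClosed_iInter fun x => isClosed_iInter fun _ => isClosed_iInter fun i => ?_
  exact (hF.preimage (TT_cont2 i x)).inter (hF.preimage ((TT_cont2 i x).comp continuous_inv))

theorem aux_conj_TT {k : ℕ} (i : Fin k) (u g : G) (x : Fin k → G) :
    (fun j => u * (TT i g (fun j => u⁻¹ * x j * (u⁻¹)⁻¹)) j * u⁻¹) = TT i (u * g * u⁻¹) x := by
  funext j
  by_cases hj : j = i
  · subst hj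
    simp [TT, mul_assoc]
  · simp [TT, Function.update_of_ne hj, mul_assoc]

theorem Inv_normal {k : ℕ} (F : Set (Fin k → G))
    (hconj : ∀ x ∈ F, ∀ u : G, (fun i => u * x i * u⁻¹) ∈ F) : (Inv F).Normal := by
  refine ⟨fun g hg u => ?_⟩
  intro x hx i
  have hy := aux_conj hconj hx u⁻¹
  have h1 := hg _ hy i
  constructor
  · have h2 := hconj _ h1.1 u
    rwa [aux_conj_TT] at h2
  · have h2 := hconj _ h1.2 u
    rw [aux_conj_TT] at h2
    have : (u * g * u⁻¹)⁻¹ = u * g⁻¹ * u⁻¹ := by group
    rwa [this]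

end aux

theorem topo_main {G : Type} [Group G] [TopologicalSpace G] [IsTopologicalGroup G] (k : ℕ)
    (F : Set (Fin k → G)) (hF : IsClosed F)
    (hconj : ∀ x ∈ F, ∀ u : G, (fun i => u * x i * u⁻¹) ∈ F)
    (P1 : ∀ (x : Fin k → G) (i : Fin k) (g : G) (r : ℕ), 0 < r →
      (∀ j : ℤ, Function.update x i (x i * g ^ ((r : ℤ) * j)) ∈ F) →
      ∀ j : ℤ, Function.update x i (x i * g ^ j) ∈ F)
    (P2 : ∀ (x : Fin k → G) (i : Fin k) (a : G), ∃ D : ℕ, ∀ (h : G) (m : ℕ), 0 < m → h ^ m = a →
      ∀ r : ℕ, 0 < r → (∀ j : ℕ, j < D → Function.update x i (x i * h ^ (r * j)) ∈ F) →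
      ∀ j : ℤ, Function.update x i (x i * h ^ j) ∈ F)
    (hint : (interior F).Nonempty) (hgood : ∃ a : G, a ≠ 1 ∧ Good a) :
    HasProperClosedIsolatedNormal G ∨ F = Set.univ := by
  classical
  have hiso : ∀ g : G, ∀ n : ℕ, 0 < n → g ^ n ∈ Inv F → g ∈ Inv F := by
    intro g r hr hg x hx i
    have h1 := P1 x i g r hr (by
      intro j
      have h2 : g ^ ((r : ℤ) * j) ∈ Inv F := by
        rw [zpow_mul, zpow_natCast]
        exact (Inv F).zpow_mem hg j
      exact (h2 x hx i).1)
    constructor
    · have := h1 1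
      rwa [zpow_one] at this
    · have := h1 (-1)
      rwa [zpow_neg_one] at this
  have hgoodInv : ∀ a : G, Good a → a ∈ Inv F := by
    intro a ha x hx i
    obtain ⟨D, hD⟩ := P2 x i a
    have hV : {v : G | ∀ j ∈ Finset.range D, TT i (v ^ j) x ∈ interior F} ∈ 𝓝 (1 : G) := by
      show ∀ᶠ v in 𝓝 (1 : G), ∀ j ∈ Finset.range D, TT i (v ^ j) x ∈ interior F
      rw [Filter.eventually_all_finset]
      intro j _
      have hc : Continuous fun v : G => TT i (v ^ j) x := (TT_cont2 i x).comp (continuous_pow j)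
      have h1 : TT i ((1 : G) ^ j) x ∈ interior F := by rw [one_pow, TT_one]; exact hx
      exact hc.continuousAt.eventually_mem (isOpen_interior.mem_nhds h1)
    obtain ⟨h, ⟨m, hm, hma⟩, r, hr, hrV⟩ := ha _ hV
    have h2 := hD h m hm hma r hr (by
      intro j hj
      rw [pow_mul]
      exact interior_subset (hrV j (Finset.mem_range.2 hj)))
    constructor
    · have := h2 m
      rwa [zpow_natCast, hma] at this
    · have := h2 (-m)
      rwa [zpow_neg, zpow_natCast, hma] at this
  obtain ⟨a, ha1, ha⟩ := hgood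
  by_cases htop : Inv F = ⊤
  · right
    obtain ⟨x0, hx0⟩ := hint
    rw [Set.eq_univ_iff_forall]
    intro y
    have hchange : ∀ x ∈ interior F, ∀ i, ∀ v : G, Function.update x i v ∈ interior F := by
      intro x hx i v
      have hmem : (x i)⁻¹ * v ∈ Inv F := by rw [htop]; exact Subgroup.mem_top _
      have h1 := aux_open (fun x hx => (hmem x hx i).1) hx
      have h2 : TT i ((x i)⁻¹ * v) x = Function.update x i v := by
        simp [TT]
      rwa [h2] at h1
    have hall : ∀ s : Finset (Fin k), (fun i => if i ∈ s then y i else x0 i) ∈ interior F := by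
      intro s
      induction s using Finset.induction_on with
      | empty => simpa using hx0
      | insert b s hb ih =>
        have h1 := hchange _ ih b (y b)
        have h2 : Function.update (fun i => if i ∈ s then y i else x0 i) b (y b) =
            (fun i => if i ∈ insert b s then y i else x0 i) := by
          funext j
          by_cases hj : j = b
          · subst hj; simp
          · simp [Function.update_of_ne hj, hj]
        rwa [h2] at h1
    have := hall Finset.univ
    simp only [Finset.mem_univ, if_true] at this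
    exact interior_subset this
  · left
    refine ⟨Inv F, Inv_normal F hconj, Inv_closed F hF, ?_, htop, hiso⟩
    intro hbot
    have := hgoodInv a ha
    rw [hbot, Subgroup.mem_bot] at this
    exact ha1 this

end Pool.Agent.Helper28.LCN
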