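import Pool.Agent.Helper28.LCN.Seq
import Pool.Agent.Helper28.LCN.RootClass
import Pool.Agent.Helper28.LCN.LcsComm
import Pool.Agent.Helper28.LCN.Rep
import Pool.Agent.Helper28.LCN.Topo

set_option autoImplicit false

namespace Pool.Agent.Helper28.LCN

open scoped commutatorElement
open Subgroup

section filt
variable {G : Type} [Group G]

/-- the filtration `K, K, γ₂ K, γ₃ K, …` -/
def Fil (K : Subgroup G) : ℕ → Subgroup G
  | 0 => K
  | n + 1 => K.lowerCentralSeries n

theorem Fil_anti (K : Subgroup G) (i : ℕ) : Fil K (i + 1) ≤ Fil K i := by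
  cases i with
  | zero => exact le_rfl
  | succ i => exact K.lowerCentralSeries_antitone (Nat.le_succ i)

theorem Fil_comm (K : Subgroup G) (i j : ℕ) : ∀ a ∈ Fil K i, ∀ b ∈ Fil K j, ⁅a, b⁆ ∈ Fil K (i + j) := by
  intro a ha b hb
  rcases Nat.eq_zero_or_pos i with rfl | hi
  · rcases Nat.eq_zero_or_pos j with rfl | hj
    · exact K.mul_mem (K.mul_mem (K.mul_mem ha hb) (K.inv_mem ha)) (K.inv_mem hb)
    · obtain ⟨j, rfl⟩ : ∃ j', j = j' + 1 := ⟨j - 1, by omega⟩
      rw [Nat.zero_add]
      have h1 : ⁅a, b⁆ ∈ ⁅K, K.lowerCentralSeries j⁆ := commutator_mem_commutator ha hb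
      rw [Subgroup.commutator_comm, ← Subgroup.lowerCentralSeries_succ] at h1
      exact K.lowerCentralSeries_antitone (Nat.le_succ j) h1
  · obtain ⟨i, rfl⟩ : ∃ i', i = i' + 1 := ⟨i - 1, by omega⟩
    rcases Nat.eq_zero_or_pos j with rfl | hj
    · rw [Nat.add_zero]
      have h1 : ⁅a, b⁆ ∈ ⁅K.lowerCentralSeries i, K⁆ := commutator_mem_commutator ha hb
      rw [← Subgroup.lowerCentralSeries_succ] at h1
      exact K.lowerCentralSeries_antitone (Nat.le_succ i) h1
    · obtain ⟨j, rfl⟩ : ∃ j', j = j' + 1 := ⟨j - 1, by omega⟩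
      have h1 : ⁅a, b⁆ ∈ ⁅K.lowerCentralSeries i, K.lowerCentralSeries j⁆ := commutator_mem_commutator ha hb
      have h2 := lcs_comm K i j h1
      have h3 : i + 1 + (j + 1) = (i + j + 1) + 1 := by ring
      rw [h3]
      exact h2

theorem dd_const (s : ℤ) (c : G) : dd s (fun _ => c) = fun _ => 1 := by
  funext n; simp [dd]

theorem Q_one (Φ : ℕ → Subgroup G) (m : ℕ) : ∀ i, Q Φ m i (fun _ => 1) := by
  induction m with
  | zero => intro i n; exact one_mem _
  | succ m ih =>
    intro i
    refine ⟨fun n => one_mem _, fun s => ?_⟩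
    rw [dd_const]
    exact ih _

theorem Q_const (Φ : ℕ → Subgroup G) (m i : ℕ) (c : G) (hc : c ∈ Φ i) : Q Φ m i (fun _ => c) := by
  cases m with
  | zero => exact fun _ => hc
  | succ m =>
    refine ⟨fun _ => hc, fun s => ?_⟩
    rw [dd_const]
    exact Q_one Φ m _

theorem Q_zpow (K : Subgroup G) (m : ℕ) (h : G) (hh : h ∈ K) : Q (Fil K) m 0 (fun j => h ^ j) := by
  cases m with
  | zero => exact fun n => K.zpow_mem hh n
  | succ m =>
    refine ⟨fun n => K.zpow_mem hh n, fun s => ?_⟩
    have : dd s (fun j : ℤ => h ^ j) = fun _ => h ^ s := by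
      funext n
      simp only [dd]
      rw [zpow_add, ← zpow_neg, (Commute.zpow_zpow_self h n s).eq, mul_assoc, ← zpow_add, add_neg_cancel,
        zpow_zero, mul_one]
    rw [this]
    exact Q_const _ m 1 _ (K.zpow_mem hh s)

theorem RR_of_Q (Φ : ℕ → Subgroup G) (m : ℕ) : ∀ (i : ℕ) (f : ℤ → G), Φ (i + m) = ⊥ → Q Φ m i f → RR m f := by
  induction m with
  | zero =>
    intro i f hb hf n
    have := hf n
    rw [Nat.add_zero] at hb
    rw [hb, mem_bot] at this
    exact this
  | succ m ih =>
    intro i f hb hf s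
    apply ih (i + 1) _ _ (hf.2 s)
    rw [← hb]; congr 1; ring

theorem Q_E {ι : Type} (K : Subgroup G) (m : ℕ) (y : ℤ → ι → G) (hy : ∀ i, Q (Fil K) m 0 (fun j => y j i)) (w : List ι)
    (a : ℤ → G) (ha : Q (Fil K) m 0 a) : Q (Fil K) m 0 (fun j => E (y j) w (a j)) := by
  induction w with
  | nil => exact ha
  | cons i w ih =>
    have := (Q_all (Fil K) (Fil_anti K) (Fil_comm K) m).2.2 0 0 _ _ (hy i) ih
    exact this

theorem RR_E {k : ℕ} (K : Subgroup G) (d : ℕ) (hd : K.lowerCentralSeries d = ⊥) (x : Fin k → G)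
    (hx : ∀ i, x i ∈ K) (i : Fin k) (h : G) (hh : h ∈ K) (w : List (Fin k)) (i' : Fin k) :
    RR (d + 1) (fun j : ℤ => E (Function.update x i (x i * h ^ j)) w (Function.update x i (x i * h ^ j) i')) := by
  have h0 : ∀ i'', Q (Fil K) (d + 1) 0 (fun j : ℤ => Function.update x i (x i * h ^ j) i'') := by
    intro i''
    by_cases hi : i'' = i
    · subst hi
      simp only [Function.update_self]
      exact (Q_all (Fil K) (Fil_anti K) (Fil_comm K) (d + 1)).1 0 _ _ (Q_const _ _ _ _ (hx i'')) (Q_zpow K _ h hh)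
    · simp only [Function.update_of_ne hi]
      exact Q_const _ _ _ _ (hx i'')
  apply RR_of_Q (Fil K) (d + 1) 0 _ _ (Q_E K (d + 1) _ h0 w _ (h0 i'))
  rw [Nat.zero_add]
  exact hd

/-- tuples generating a group of class `≤ N` -/
def FF (G : Type) [Group G] (k N : ℕ) : Set (Fin k → G) :=
  {x | ∀ w : List (Fin k), w.length = N → ∀ i, E x w (x i) = 1}

theorem E_conj {ι : Type} (x : ι → G) (u : G) (w : List ι) (a : G) :
    E (fun i => u * x i * u⁻¹) w (u * a * u⁻¹) = u * E x w a * u⁻¹ := by
  induction w with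
  | nil => rfl
  | cons i w ih =>
    rw [E_cons, E_cons, ih]
    simp only [commutatorElement_def]; group

theorem FF_conj (k N : ℕ) : ∀ x ∈ FF G k N, ∀ u : G, (fun i => u * x i * u⁻¹) ∈ FF G k N := by
  intro x hx u w hw i
  rw [E_conj, hx w hw i]; simp

theorem FF_le {k N : ℕ} {x : Fin k → G} (hx : x ∈ FF G k N) :
    ∀ w : List (Fin k), N ≤ w.length → ∀ i, E x w (x i) = 1 := by
  intro w
  induction w with
  | nil =>
    intro hw i
    exact hx [] (by simpa using (hw.antisymm (Nat.zero_le _)).symm) i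
  | cons j w ih =>
    intro hw i
    rcases Nat.lt_or_ge w.length N with h1 | h1
    · refine hx (j :: w) ?_ i
      simp only [List.length_cons] at hw ⊢
      omega
    · rw [E_cons, ih h1 i, commutatorElement_one_right]

theorem E_lcs {ι : Type} (K : Subgroup G) (x : ι → G) (hx : ∀ i, x i ∈ K) (a : G) (ha : a ∈ K) (w : List ι) :
    E x w a ∈ K.lowerCentralSeries w.length := by
  induction w with
  | nil => exact ha
  | cons i w ih =>
    rw [E_cons, List.length_cons, Subgroup.lowerCentralSeries_succ, Subgroup.commutator_comm]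
    exact commutator_mem_commutator (hx i) ih

theorem exists_lcs (hl : LocNilp G) (s : Finset G) : ∃ d, (closure (s : Set G)).lowerCentralSeries d = ⊥ :=
  Subgroup.isNilpotent_iff_lowerCentralSeries (closure (s : Set G)) |>.mp (hl s)

theorem FF_union (hl : LocNilp G) (k : ℕ) : ⋃ N, FF G k N = Set.univ := by
  classical
  rw [Set.eq_univ_iff_forall]
  intro x
  obtain ⟨d, hd⟩ := exists_lcs hl (Finset.univ.image x)
  rw [Set.mem_iUnion]
  refine ⟨d, fun w hw i => ?_⟩
  have h1 : ∀ i, x i ∈ closure (((Finset.univ.image x : Finset G)) : Set G) := fun i =>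
    subset_closure (by simp)
  have := E_lcs _ x h1 (x i) (h1 i) w
  rw [hw, hd, mem_bot] at this
  exact this

theorem FF_P1 (hl : LocNilp G) (htf : TorsionFree G) (k N : ℕ) (x : Fin k → G) (i : Fin k) (g : G) (r : ℕ)
    (hr : 0 < r) (h : ∀ j : ℤ, Function.update x i (x i * g ^ ((r : ℤ) * j)) ∈ FF G k N) :
    ∀ j : ℤ, Function.update x i (x i * g ^ j) ∈ FF G k N := by
  classical
  obtain ⟨d, hd⟩ := exists_lcs hl (insert g (Finset.univ.image x))
  intro j w hw i'
  refine zeros_mul htf (d + 1) _ (RR_E (closure ((insert g (Finset.univ.image x) : Finset G) : Set G)) d hd x ?_ i g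
    (subset_closure (by simp)) w i') r hr ?_ j
  · exact fun i => subset_closure (by simp)
  · intro j
    exact h j w hw i'

theorem FF_P2 (hl : LocNilp G) (htf : TorsionFree G) (k N : ℕ) (x : Fin k → G) (i : Fin k) (a : G) :
    ∃ D : ℕ, ∀ (h : G) (m : ℕ), 0 < m → h ^ m = a →
      ∀ r : ℕ, 0 < r → (∀ j : ℕ, j < D → Function.update x i (x i * h ^ (r * j)) ∈ FF G k N) →
      ∀ j : ℤ, Function.update x i (x i * h ^ j) ∈ FF G k N := by
  classical
  obtain ⟨d, hd⟩ := exists_lcs hl (insert a (Finset.univ.image x))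
  refine ⟨d + 1, ?_⟩
  intro h m hm hma r hr hj j w hw i'
  have hd' : (closure (insert h ((Finset.univ.image x : Finset G) : Set G))).lowerCentralSeries d = ⊥ := by
    apply root_class hl htf _ h m hm d
    rw [hma, ← Finset.coe_insert]
    exact hd
  refine zeros_few htf (d + 1) _ (RR_E (closure (insert h ((Finset.univ.image x : Finset G) : Set G))) d hd' x ?_ i h
    (subset_closure (by simp)) w i') r hr ?_ j
  · exact fun i => subset_closure (by simp)
  · intro j hjd
    have := hj j hjd w hw i'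
    have e : ((r : ℤ) * (j : ℤ)) = ((r * j : ℕ) : ℤ) := by push_cast; ring
    simp only [e, zpow_natCast]
    exact this

end filt

section topo
variable {G : Type} [Group G] [TopologicalSpace G] [IsTopologicalGroup G]

theorem E_cont {ι X : Type} [TopologicalSpace X] (y : X → ι → G) (hy : ∀ i, Continuous fun x => y x i) (w : List ι)
    (a : X → G) (ha : Continuous a) : Continuous fun x => E (y x) w (a x) := by
  induction w with
  | nil => exact ha
  | cons i w ih =>
    have : (fun x => E (y x) (i :: w) (a x)) = fun x => y x i * E (y x) w (a x) * (y x i)⁻¹ * (E (y x) w (a x))⁻¹ := by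
      funext x; rfl
    rw [this]
    exact (((hy i).mul ih).mul (hy i).inv).mul ih.inv

theorem FF_closed [T2Space G] (k N : ℕ) : IsClosed (FF G k N) := by
  have : FF G k N = ⋂ w : List (Fin k), ⋂ (_ : w.length = N), ⋂ i, {x | E x w (x i) = 1} := by
    ext x; simp [FF]
  rw [this]
  refine isClosed_iInter fun w => isClosed_iInter fun _ => isClosed_iInter fun i => ?_
  exact isClosed_eq (E_cont _ (fun i => continuous_apply i) w _ (continuous_apply i)) continuous_const

/-- A counterexample is uniformly locally nilpotent. -/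
theorem uniform [LocallyCompactSpace G] [T2Space G] (hl : LocNilp G) (htf : TorsionFree G)
    (hnd : ¬ IsOpen ({1} : Set G)) (hno : ¬ HasProperClosedIsolatedNormal G) :
    ∀ k : ℕ, ∃ N : ℕ, ∀ x : Fin k → G, ∀ w : List (Fin k), N ≤ w.length → ∀ i, E x w (x i) = 1 := by
  intro k
  obtain ⟨N, hN⟩ := nonempty_interior_of_iUnion_of_closed (fun N => FF_closed (G := G) k N) (FF_union hl k)
  have h := topo_main k (FF G k N) (FF_closed k N) (FF_conj k N) (FF_P1 hl htf k N) (FF_P2 hl htf k N) hN
    (exists_good hnd)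
  rcases h with h | h
  · exact absurd h hno
  · refine ⟨N, fun x => FF_le ?_⟩
    rw [h]; trivial

end topo

end Pool.Agent.Helper28.LCN
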