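import Mathlib

set_option autoImplicit false

namespace Pool.Agent.Helper28.LCN

/-- additive rational functionals separate points of torsion-free abelian groups -/
theorem exists_functional {G : Type} [Group G] (htf : ∀ g : G, ∀ n : ℕ, 0 < n → g ^ n = 1 → g = 1)
    (B : Subgroup G) (hB : ∀ a ∈ B, ∀ b ∈ B, a * b = b * a) (b : G) (hb : b ∈ B) (hb1 : b ≠ 1) :
    ∃ φ : G → ℚ, (∀ x ∈ B, ∀ y ∈ B, φ (x * y) = φ x + φ y) ∧ φ b ≠ 0 := by
  classical
  letI : CommGroup B := { (inferInstance : Group B) with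
    mul_comm := fun a b => Subtype.ext (hB a a.2 b b.2) }
  let b' : Additive B := Additive.ofMul ⟨b, hb⟩
  let f : ℤ →ₗ[ℤ] Additive B := LinearMap.toSpanSingleton ℤ (Additive B) b'
  have hf : Function.Injective f := by
    rw [injective_iff_map_eq_zero]
    intro n hn
    have h1 : n • b' = 0 := hn
    by_contra hn0
    apply hb1
    have h2 : b ^ n = 1 := by
      have := congrArg (fun t : Additive B => ((Additive.toMul t : B) : G)) h1
      simpa [b'] using this
    rcases Int.natAbs_eq n with h3 | h3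
    · apply htf b n.natAbs (Int.natAbs_pos.mpr hn0)
      rw [h3, zpow_natCast] at h2
      exact h2
    · apply htf b n.natAbs (Int.natAbs_pos.mpr hn0)
      rw [h3, zpow_neg, zpow_natCast, inv_eq_one] at h2
      exact h2
  let g : ℤ →ₗ[ℤ] ℚ := LinearMap.toSpanSingleton ℤ ℚ 1
  obtain ⟨h, hh⟩ := Module.Baer.extension_property (Module.Baer.of_divisible (A := ℚ)) f hf g
  refine ⟨fun x => if hx : x ∈ B then h (Additive.ofMul ⟨x, hx⟩) else 0, ?_, ?_⟩
  · intro x hx y hy
    simp only [hx, hy, B.mul_mem hx hy, dif_pos]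
    rw [← map_add]
    rfl
  · simp only [hb, dif_pos]
    have h1 : h (f 1) = g 1 := by rw [← hh]; rfl
    have h2 : f 1 = b' := by simp [f]
    rw [h2] at h1
    change h b' ≠ 0
    rw [h1]
    simp [g]

end Pool.Agent.Helper28.LCN
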