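import Pool.Agent.Helper28.LCN.Poly

set_option autoImplicit false

namespace Pool.Agent.Helper28.LCN

open Polynomial



section span
variable {R : Type} [Ring R] {G : Type} [Group G]

lemma TD_zero (ρ : G →* R) : (0 : R) ∈ TD ρ :=
  ⟨1, by simp, by simp [coeff_one], fun t => ⟨1, by simp⟩⟩

lemma TD_add (ρ : G →* R) {a b : R} (ha : a ∈ TD ρ) (hb : b ∈ TD ρ) : a + b ∈ TD ρ := by
  obtain ⟨p, hp0, hp1, hpt⟩ := ha
  obtain ⟨q, hq0, hq1, hqt⟩ := hb
  refine ⟨p * q, by rw [mul_coeff_zero, hp0, hq0, one_mul], ?_, ?_⟩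
  · rw [mul_coeff_one, hp0, hq0, hp1, hq1, one_mul, mul_one, add_comm]
  · intro t
    obtain ⟨g, hg⟩ := hpt t
    obtain ⟨h, hh⟩ := hqt t
    exact ⟨g * h, by rw [map_mul, map_mul, hg, hh]⟩

lemma TD_conj (ρ : G →* R) (g : G) {a : R} (ha : a ∈ TD ρ) : ρ g * a * ρ g⁻¹ ∈ TD ρ := by
  obtain ⟨p, hp0, hp1, hpt⟩ := ha
  refine ⟨C (ρ g) * p * C (ρ g⁻¹), ?_, ?_, ?_⟩
  · rw [coeff_mul_C, coeff_C_mul, hp0, mul_one, ← map_mul, mul_inv_cancel, map_one]
  · rw [coeff_mul_C, coeff_C_mul, hp1]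
  · intro t
    obtain ⟨h, hh⟩ := hpt t
    exact ⟨g * h * g⁻¹, by rw [map_mul, map_mul, evn_C, evn_C, hh, map_mul, map_mul]⟩

variable [Algebra ℚ R]

lemma TD_inv (ρ : G →* R) {n : ℕ} (hn : ∀ g : G, (ρ g - 1) ^ n = 0) (p : R[X])
    (hp0 : p.coeff 0 = 1) (hpt : ∀ t : ℕ, ∃ g : G, evn t p = ρ g) :
    ∃ q : R[X], q.coeff 0 = 1 ∧ q.coeff 1 = - p.coeff 1 ∧
      ∀ (t : ℕ) (g : G), evn t p = ρ g → evn t q = ρ g⁻¹ := by
  have h0 : (p - 1) ^ n = 0 := by
    apply eq_zero_of_evn
    intro t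
    obtain ⟨g, hg⟩ := hpt t
    rw [map_pow, map_sub, map_one, hg, hn]
  have h1 : (1 - p) ^ n = 0 := by
    rw [← neg_sub, neg_pow, h0, mul_zero]
  have hpq : p * (∑ j ∈ Finset.range n, (1 - p) ^ j) = 1 := by
    have := mul_neg_geom_sum (1 - p) n
    rw [h1, sub_sub_cancel, sub_zero] at this
    exact this
  have hqp : (∑ j ∈ Finset.range n, (1 - p) ^ j) * p = 1 := by
    have := geom_sum_mul_neg (1 - p) n
    rw [h1, sub_sub_cancel, sub_zero] at this
    exact this
  set q := ∑ j ∈ Finset.range n, (1 - p) ^ j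
  have hq0 : q.coeff 0 = 1 := by
    have := congrArg (fun f => coeff f 0) hpq
    simpa [mul_coeff_zero, hp0] using this
  refine ⟨q, hq0, ?_, ?_⟩
  · have := congrArg (fun f => coeff f 1) hpq
    simp only [mul_coeff_one, hp0, hq0, one_mul, mul_one, coeff_one] at this
    norm_num at this
    exact eq_neg_of_add_eq_zero_left this
  · intro t g hg
    have h2 : evn t q * ρ g = 1 := by rw [← hg, ← map_mul, hqp, map_one]
    calc evn t q = evn t q * (ρ g * ρ g⁻¹) := by rw [← map_mul, mul_inv_cancel, map_one, mul_one]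
      _ = ρ g⁻¹ := by rw [← mul_assoc, h2, one_mul]

lemma TD_neg (ρ : G →* R) {n : ℕ} (hn : ∀ g : G, (ρ g - 1) ^ n = 0) {a : R} (ha : a ∈ TD ρ) :
    -a ∈ TD ρ := by
  obtain ⟨p, hp0, hp1, hpt⟩ := ha
  obtain ⟨q, hq0, hq1, hqt⟩ := TD_inv ρ hn p hp0 hpt
  refine ⟨q, hq0, by rw [hq1, hp1], ?_⟩
  intro t
  obtain ⟨g, hg⟩ := hpt t
  exact ⟨g⁻¹, hqt t g hg⟩

lemma TD_nsmul (ρ : G →* R) {a : R} (ha : a ∈ TD ρ) (m : ℕ) : m • a ∈ TD ρ := by
  induction m with
  | zero => rw [zero_smul]; exact TD_zero ρ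
  | succ m ih => rw [add_smul, one_smul]; exact TD_add ρ ih ha

lemma TD_zsmul (ρ : G →* R) {n : ℕ} (hn : ∀ g : G, (ρ g - 1) ^ n = 0) {a : R} (ha : a ∈ TD ρ)
    (m : ℤ) : m • a ∈ TD ρ := by
  obtain ⟨k, rfl | rfl⟩ := m.eq_nat_or_neg
  · rw [natCast_zsmul]; exact TD_nsmul ρ ha k
  · rw [neg_smul, natCast_zsmul]; exact TD_neg ρ hn (TD_nsmul ρ ha k)

lemma TD_mult (ρ : G →* R) {n : ℕ} (hn : ∀ g : G, (ρ g - 1) ^ n = 0) {a : R}
    (ha : a ∈ Submodule.span ℚ (TD ρ)) : ∃ M : ℕ, 0 < M ∧ M • a ∈ TD ρ := by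
  induction ha using Submodule.span_induction with
  | mem x hx => exact ⟨1, one_pos, by rw [one_smul]; exact hx⟩
  | zero => exact ⟨1, one_pos, by rw [smul_zero]; exact TD_zero ρ⟩
  | add x y _ _ hx hy =>
    obtain ⟨M, hM, hMx⟩ := hx
    obtain ⟨M', hM', hMy⟩ := hy
    refine ⟨M * M', Nat.mul_pos hM hM', ?_⟩
    have e : (M * M') • (x + y) = M' • (M • x) + M • (M' • y) := by
      rw [smul_add, smul_smul, smul_smul, mul_comm M' M]
    rw [e]
    exact TD_add ρ (TD_nsmul ρ hMx _) (TD_nsmul ρ hMy _)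
  | smul r x _ hx =>
    obtain ⟨M, hM, hMx⟩ := hx
    refine ⟨M * r.den, Nat.mul_pos hM r.den_pos, ?_⟩
    have e : (M * r.den) • (r • x) = r.num • (M • x) := by
      rw [← Nat.cast_smul_eq_nsmul ℚ, ← Nat.cast_smul_eq_nsmul ℚ, ← Int.cast_smul_eq_zsmul ℚ,
        smul_smul, smul_smul]
      congr 1
      push_cast
      have := Rat.mul_den_eq_num r
      calc (M : ℚ) * r.den * r = M * (r * r.den) := by ring
        _ = r.num * M := by rw [this]; ring
    rw [e]
    exact TD_zsmul ρ hn hMx _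

lemma prod_mul_X {k : ℕ} (r : Fin k → R[X]) (w : List (Fin k)) :
    (w.map (fun i => r i * X)).prod = (w.map r).prod * X ^ w.length := by
  induction w with
  | nil => simp
  | cons a w ih =>
    rw [List.map_cons, List.prod_cons, ih, List.map_cons, List.prod_cons, List.length_cons,
      pow_succ', mul_assoc, ← mul_assoc X, X_mul, mul_assoc, mul_assoc]

lemma prod_coeff_zero {k : ℕ} (r : Fin k → R[X]) (w : List (Fin k)) :
    (w.map r).prod.coeff 0 = (w.map (fun i => (r i).coeff 0)).prod := by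
  induction w with
  | nil => simp
  | cons a w ih =>
    rw [List.map_cons, List.prod_cons, mul_coeff_zero, ih, List.map_cons, List.prod_cons]

lemma TD_prod (ρ : G →* R) {k N : ℕ} (hN : ∀ g : Fin k → G, ∀ w : List (Fin k), N ≤ w.length →
      (w.map (fun i => ρ (g i) - 1)).prod = 0) (x : Fin k → R) (hx : ∀ i, x i ∈ TD ρ)
    (w : List (Fin k)) (hw : N ≤ w.length) : (w.map x).prod = 0 := by
  choose p hp0 hp1 hpt using hx
  choose g hg using hpt
  have h1 : (w.map (fun i => p i - 1)).prod = 0 := by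
    apply eq_zero_of_evn
    intro t
    rw [map_list_prod, List.map_map]
    have e : (fun i => evn t (p i - 1)) = fun i => ρ (g i t) - 1 := by
      funext i
      rw [map_sub, map_one, hg i t]
    have := hN (fun i => g i t) w hw
    rw [← e] at this
    exact this
  have h2 : (fun i => p i - 1) = fun i => divX (p i - 1) * X := by
    funext i
    have := divX_mul_X_add (p i - 1)
    rw [coeff_sub, hp0, coeff_one_zero, sub_self, C_0, add_zero] at this
    exact this.symm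
  rw [h2, prod_mul_X] at h1
  have h3 := congrArg (fun f => coeff f (0 + w.length)) h1
  simp only [coeff_mul_X_pow, coeff_zero] at h3
  rw [prod_coeff_zero] at h3
  have h4 : (fun i => (divX (p i - 1)).coeff 0) = x := by
    funext i
    rw [coeff_divX, coeff_sub, hp1, coeff_one]
    norm_num
  rw [h4] at h3
  exact h3

lemma prod_smul_list {k : ℕ} (x : Fin k → R) (M : Fin k → ℕ) (hM : ∀ i, 0 < M i)
    (w : List (Fin k)) :
    ∃ c : ℚ, c ≠ 0 ∧ (w.map (fun i => M i • x i)).prod = c • (w.map x).prod := by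
  induction w with
  | nil => exact ⟨1, one_ne_zero, by simp⟩
  | cons a w ih =>
    obtain ⟨c, hc, h⟩ := ih
    refine ⟨M a * c, mul_ne_zero (by exact_mod_cast (hM a).ne') hc, ?_⟩
    rw [List.map_cons, List.prod_cons, h, List.map_cons, List.prod_cons,
      ← Nat.cast_smul_eq_nsmul ℚ, smul_mul_smul_comm]

lemma TD_bracket (ρ : G →* R) {n : ℕ} (hn : ∀ g : G, (ρ g - 1) ^ n = 0) {a b : R}
    (ha : a ∈ TD ρ) (hb : b ∈ TD ρ) : a * b - b * a ∈ Submodule.span ℚ (TD ρ) := by
  obtain ⟨p, hp0, hp1, hpt⟩ := ha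
  obtain ⟨q, hq0, hq1, hqt⟩ := TD_inv ρ hn p hp0 hpt
  have h := coeff_mem_of_evn (Submodule.span ℚ (TD ρ)) (p * C b * q) (by
    intro t
    obtain ⟨g, hg⟩ := hpt t
    rw [map_mul, map_mul, evn_C, hg, hqt t g hg]
    exact Submodule.subset_span (TD_conj ρ g hb)) 1
  have e : (p * C b * q).coeff 1 = a * b - b * a := by
    rw [mul_coeff_one, coeff_mul_C, coeff_mul_C, hp0, hq0, hp1, hq1, hp1]
    simp only [one_mul, mul_one, mul_neg]
    abel
  rwa [e] at h

end span

theorem span_TD {R : Type} [Ring R] [Algebra ℚ R] {G : Type} [Group G] (ρ : G →* R)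
    (hk : ∀ k : ℕ, ∃ N : ℕ, ∀ g : Fin k → G, ∀ w : List (Fin k), N ≤ w.length →
      (w.map (fun i => ρ (g i) - 1)).prod = 0) :
    (∀ a ∈ Submodule.span ℚ (TD ρ), ∀ b ∈ Submodule.span ℚ (TD ρ), a * b - b * a ∈ Submodule.span ℚ (TD ρ)) ∧
    (∀ k, ∃ N, Fam (Submodule.span ℚ (TD ρ)) k N) := by
  obtain ⟨n, hn'⟩ := hk 1
  have hn : ∀ g : G, (ρ g - 1) ^ n = 0 := by
    intro g
    have := hn' (fun _ => g) (List.replicate n 0) (by simp)
    simpa [List.map_replicate, List.prod_replicate] using this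
  refine ⟨?_, ?_⟩
  · intro a ha b hb
    induction ha using Submodule.span_induction with
    | mem x hx =>
      induction hb using Submodule.span_induction with
      | mem y hy => exact TD_bracket ρ hn hx hy
      | zero => simp
      | add y z _ _ hy hz =>
        have e : x * (y + z) - (y + z) * x = (x * y - y * x) + (x * z - z * x) := by
          rw [mul_add, add_mul]; abel
        rw [e]
        exact Submodule.add_mem _ hy hz
      | smul r y _ hy =>
        have e : x * (r • y) - (r • y) * x = r • (x * y - y * x) := by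
          rw [mul_smul_comm, smul_mul_assoc, smul_sub]
        rw [e]
        exact Submodule.smul_mem _ _ hy
    | zero => simp
    | add y z _ _ hy hz =>
      have e : (y + z) * b - b * (y + z) = (y * b - b * y) + (z * b - b * z) := by
        rw [mul_add, add_mul]; abel
      rw [e]
      exact Submodule.add_mem _ hy hz
    | smul r y _ hy =>
      have e : (r • y) * b - b * (r • y) = r • (y * b - b * y) := by
        rw [mul_smul_comm, smul_mul_assoc, smul_sub]
      rw [e]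
      exact Submodule.smul_mem _ _ hy
  · intro k
    obtain ⟨N, hN⟩ := hk k
    refine ⟨N, ?_⟩
    intro x hx w hw
    choose M hM hMx using fun i => TD_mult ρ hn (hx i)
    have h1 := TD_prod ρ hN (fun i => M i • x i) hMx w hw
    obtain ⟨c, hc, h2⟩ := prod_smul_list x M hM w
    rw [h2] at h1
    exact (smul_eq_zero.1 h1).resolve_left hc

end Pool.Agent.Helper28.LCN
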