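import Mathlib

set_option autoImplicit false

namespace Pool.Agent.Helper28.LCN

/-- Zorn step: a faithful linear representation can be shrunk to one in which every nonzero ideal contains some
`ρ g - 1`, `g ≠ 1`. -/
theorem exists_min_rep {G : Type} [Group G] (hG : ∃ g : G, g ≠ 1) (R : Type) [Ring R] [Algebra ℚ R] (ρ : G →* R)
    (hspan : Submodule.span ℚ (Set.range ρ) = ⊤)
    (hfam : ∀ k : ℕ, ∃ N : ℕ, ∀ g : Fin k → G, ∀ w : List (Fin k), N ≤ w.length →
      (w.map (fun i => ρ (g i) - 1)).prod = 0)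
    (hinj : ∀ g : G, ρ g = 1 → g = 1) :
    ∃ (S : Type) (_ : Ring S) (_ : Algebra ℚ S) (σ : G →* S),
      Submodule.span ℚ (Set.range σ) = ⊤ ∧
      (∀ k : ℕ, ∃ N : ℕ, ∀ g : Fin k → G, ∀ w : List (Fin k), N ≤ w.length →
        (w.map (fun i => σ (g i) - 1)).prod = 0) ∧
      (∀ g : G, σ g = 1 → g = 1) ∧
      (∀ I : TwoSidedIdeal S, (∃ a ∈ I, a ≠ 0) → ∃ g : G, g ≠ 1 ∧ σ g - 1 ∈ I) := by
  classical
  let P : Set (TwoSidedIdeal R) := {I | ∀ g : G, ρ g - 1 ∈ I → g = 1}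
  have hbot : (⊥ : TwoSidedIdeal R) ∈ P := by
    intro g hg
    rw [TwoSidedIdeal.mem_bot] at hg
    exact hinj g (sub_eq_zero.1 hg)
  obtain ⟨I, -, hI⟩ := zorn_le_nonempty₀ P (by
    intro c hcP hc y hy
    refine ⟨TwoSidedIdeal.mk' {x | ∃ K ∈ c, x ∈ K} ⟨y, hy, y.zero_mem⟩ ?_ ?_ ?_ ?_, ?_, ?_⟩
    · rintro a b ⟨K, hK, ha⟩ ⟨L, hL, hb⟩
      rcases hc.total hK hL with h | h
      · exact ⟨L, hL, L.add_mem (h ha) hb⟩
      · exact ⟨K, hK, K.add_mem ha (h hb)⟩
    · rintro a ⟨K, hK, ha⟩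
      exact ⟨K, hK, K.neg_mem ha⟩
    · rintro a b ⟨K, hK, hb⟩
      exact ⟨K, hK, K.mul_mem_left a b hb⟩
    · rintro a b ⟨K, hK, ha⟩
      exact ⟨K, hK, K.mul_mem_right a b ha⟩
    · intro g hg
      rw [TwoSidedIdeal.mem_mk'] at hg
      obtain ⟨K, hK, hgK⟩ := hg
      exact hcP hK g hgK
    · intro K hK x hx
      rw [TwoSidedIdeal.mem_mk']
      exact ⟨K, hK, hx⟩) ⊥ hbot
  have hIP : I ∈ P := hI.1
  let π : R →+* I.ringCon.Quotient := I.ringCon.mk'
  have hπ : Function.Surjective π := I.ringCon.mk'_surjective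
  have hker : ∀ x : R, π x = 0 ↔ x ∈ I := by
    intro x
    rw [TwoSidedIdeal.mem_iff]
    exact RingCon.eq I.ringCon
  have hsm : ∀ (q : ℚ) (x : R), π (q • x) = q • π x := fun q x => rfl
  let πl : R →ₗ[ℚ] I.ringCon.Quotient := { toFun := π, map_add' := π.map_add, map_smul' := hsm }
  refine ⟨I.ringCon.Quotient, inferInstance, inferInstance, (π : R →* I.ringCon.Quotient).comp ρ, ?_, ?_, ?_, ?_⟩
  · have h1 : (Submodule.span ℚ (Set.range ρ)).map πl = ⊤ := by
      rw [hspan, Submodule.map_top, LinearMap.range_eq_top]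
      exact hπ
    rw [Submodule.map_span, ← Set.range_comp] at h1
    exact h1
  · intro k
    obtain ⟨N, hN⟩ := hfam k
    refine ⟨N, fun g w hw => ?_⟩
    have h1 := congrArg π (hN g w hw)
    rw [map_list_prod, List.map_map, map_zero] at h1
    rw [← h1]
    congr 1
  · intro g hg
    apply hIP g
    rw [← hker, map_sub, map_one]
    have : π (ρ g) = 1 := hg
    rw [this, sub_self]
  · rintro J ⟨a, haJ, ha0⟩
    obtain ⟨b, rfl⟩ := hπ a
    by_contra hcon
    push Not at hcon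
    have hJ' : J.comap π ∈ P := by
      intro g hg
      by_contra hne
      apply hcon g hne
      rw [TwoSidedIdeal.mem_comap] at hg
      have : π (ρ g - 1) = π (ρ g) - 1 := by rw [map_sub, map_one]
      rw [this] at hg
      exact hg
    have hle : I ≤ J.comap π := by
      intro x hx
      rw [TwoSidedIdeal.mem_comap, (hker x).2 hx]
      exact J.zero_mem
    have h2 : J.comap π ≤ I := hI.2 hJ' hle
    have h3 : b ∈ J.comap π := by rw [TwoSidedIdeal.mem_comap]; exact haJ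
    exact ha0 ((hker b).2 (h2 h3))

end Pool.Agent.Helper28.LCN
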