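import Pool.Agent.Helper28.LCN.LieU
import Pool.Agent.Helper28.LCN.SpanTD
import Pool.Agent.Helper28.LCN.ZornRep
import Pool.Agent.Helper28.LCN.AbNormal

set_option autoImplicit false

namespace Pool.Agent.Helper28.LCN

/-- In a uniformly locally unipotent linear group the enveloping algebra is not semiprime. -/
theorem repU {R : Type} [Ring R] [Algebra ℚ R] {G : Type} [Group G] (ρ : G →* R)
    (hspan : Submodule.span ℚ (Set.range ρ) = ⊤)
    (hfam : ∀ k : ℕ, ∃ N : ℕ, ∀ g : Fin k → G, ∀ w : List (Fin k), N ≤ w.length →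
      (w.map (fun i => ρ (g i) - 1)).prod = 0)
    (hnt : ∃ g, ρ g ≠ 1) : ∃ A : R, A ≠ 0 ∧ ∀ r, A * r * A = 0 := by
  obtain ⟨hbr, hk⟩ := span_TD ρ hfam
  obtain ⟨n, hn⟩ := hfam 1
  have hn' : ∀ g : G, (ρ g - 1) ^ n = 0 := by
    intro g
    have := hn (fun _ => g) (List.replicate n 0) (by simp)
    simpa using this
  have hne : ∃ a ∈ Submodule.span ℚ (TD ρ), a ≠ 0 := by
    obtain ⟨g, hg⟩ := hnt
    obtain ⟨ζ, hζ, _, h2⟩ := exists_log ρ g n (hn' g)
    exact ⟨ζ, Submodule.subset_span hζ, fun h0 => hg (h2 h0)⟩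
  obtain ⟨A, hA, hAz⟩ := lieU _ hbr hne hk
  refine ⟨A, hA, ?_⟩
  have hadj : ∀ r ∈ Algebra.adjoin ℚ ((Submodule.span ℚ (TD ρ) : Submodule ℚ R) : Set R), A * r * A = 0 := by
    intro r hr
    rw [← Subalgebra.mem_toSubmodule, Algebra.adjoin_eq_span] at hr
    induction hr using Submodule.span_induction with
    | mem y hy =>
      obtain ⟨l, hl, rfl⟩ := Submonoid.exists_list_of_mem_closure hy
      exact hAz l hl
    | zero => simp
    | add y z _ _ h1 h2 => rw [mul_add, add_mul, h1, h2, add_zero]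
    | smul c y _ h1 => rw [mul_smul_comm, smul_mul_assoc, h1, smul_zero]
  intro r
  have hr : r ∈ Submodule.span ℚ (Set.range ρ) := by rw [hspan]; exact Submodule.mem_top
  induction hr using Submodule.span_induction with
  | mem y hy =>
    obtain ⟨g, rfl⟩ := hy
    obtain ⟨ζ, hζ, h1, _⟩ := exists_log ρ g n (hn' g)
    apply hadj
    refine Algebra.adjoin_mono ?_ h1
    rintro _ rfl
    exact Submodule.subset_span hζ
  | zero => simp
  | add y z _ _ h1 h2 => rw [mul_add, add_mul, h1, h2, add_zero]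
  | smul c y _ h1 => rw [mul_smul_comm, smul_mul_assoc, h1, smul_zero]

/-- the ideal generated by `A` with `A R A = 0` has square zero -/
theorem ideal_sq {R : Type} [Ring R] (A : R) (hA : ∀ r, A * r * A = 0) :
    ∀ a ∈ TwoSidedIdeal.span {A}, ∀ b ∈ TwoSidedIdeal.span {A}, a * b = 0 := by
  let J1 : TwoSidedIdeal R := TwoSidedIdeal.mk' {a | ∀ r, a * r * A = 0} (by intro r; simp)
    (by intro x y hx hy r; rw [add_mul, add_mul, hx r, hy r, add_zero])
    (by intro x hx r; rw [neg_mul, neg_mul, hx r, neg_zero])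
    (by intro x y hy r; rw [mul_assoc x y r, mul_assoc x, hy r, mul_zero])
    (by intro x y hx r; rw [mul_assoc x y r]; exact hx _)
  have h1 : TwoSidedIdeal.span {A} ≤ J1 := by
    rw [TwoSidedIdeal.span_le]
    rintro _ rfl
    rw [SetLike.mem_coe, TwoSidedIdeal.mem_mk']
    exact hA
  let J2 : TwoSidedIdeal R := TwoSidedIdeal.mk' {b | ∀ a ∈ TwoSidedIdeal.span {A}, ∀ r, a * r * b = 0}
    (by intro a _ r; simp)
    (by intro x y hx hy a ha r; rw [mul_add, hx a ha r, hy a ha r, add_zero])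
    (by intro x hx a ha r; rw [mul_neg, hx a ha r, neg_zero])
    (by intro x y hy a ha r; rw [← mul_assoc, mul_assoc a r x]; exact hy a ha _)
    (by intro x y hx a ha r; rw [← mul_assoc, hx a ha r, zero_mul])
  have h2 : TwoSidedIdeal.span {A} ≤ J2 := by
    rw [TwoSidedIdeal.span_le]
    rintro _ rfl
    rw [SetLike.mem_coe, TwoSidedIdeal.mem_mk']
    intro a ha r
    have := h1 ha
    rw [TwoSidedIdeal.mem_mk'] at this
    exact this r
  intro a ha b hb
  have := h2 hb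
  rw [TwoSidedIdeal.mem_mk'] at this
  simpa using this a ha 1

/-- Main algebraic step, from a representation with abelian kernel. -/
theorem exists_comm_conj {G : Type} [Group G] (hnt : ∃ g : G, g ≠ 1) (R : Type) [Ring R] [Algebra ℚ R] (ρ : G →* R)
    (hspan : Submodule.span ℚ (Set.range ρ) = ⊤)
    (hfam : ∀ k : ℕ, ∃ N : ℕ, ∀ g : Fin k → G, ∀ w : List (Fin k), N ≤ w.length →
      (w.map (fun i => ρ (g i) - 1)).prod = 0)
    (hker : ∀ x y : G, ρ x = 1 → ρ y = 1 → x * y = y * x) :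
    ∃ x : G, x ≠ 1 ∧ ∀ h : G, x * (h * x * h⁻¹) = (h * x * h⁻¹) * x := by
  by_cases hinj : ∀ g, ρ g = 1 → g = 1
  · obtain ⟨S, _, _, σ, hs1, hs2, hs3, hs4⟩ := exists_min_rep hnt R ρ hspan hfam hinj
    obtain ⟨g0, hg0⟩ := hnt
    obtain ⟨A, hA, hAr⟩ := repU σ hs1 hs2 ⟨g0, fun h => hg0 (hs3 g0 h)⟩
    have hsq := ideal_sq A hAr
    obtain ⟨g, hg1, hg⟩ := hs4 (TwoSidedIdeal.span {A}) ⟨A, TwoSidedIdeal.subset_span rfl, hA⟩
    refine ⟨g, hg1, fun h => ?_⟩
    have hg' : σ (h * g * h⁻¹) - 1 ∈ TwoSidedIdeal.span {A} := by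
      have h1 : σ (h * g * h⁻¹) - 1 = σ h * (σ g - 1) * σ h⁻¹ := by
        rw [mul_sub, sub_mul, mul_one, ← map_mul, ← map_mul, ← map_mul, mul_inv_cancel, map_one]
      rw [h1]
      exact TwoSidedIdeal.mul_mem_right _ _ _ (TwoSidedIdeal.mul_mem_left _ _ _ hg)
    set g' := h * g * h⁻¹ with hgdef
    have e1 := hsq _ hg _ hg'
    have e2 := hsq _ hg' _ hg
    have e3 : σ g * σ g' = σ g' * σ g := by
      have f1 : σ g * σ g' = (σ g - 1) * (σ g' - 1) + σ g + σ g' - 1 := by noncomm_ring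
      have f2 : σ g' * σ g = (σ g' - 1) * (σ g - 1) + σ g + σ g' - 1 := by noncomm_ring
      rw [f1, f2, e1, e2]
    have e4 : σ (g * g' * (g' * g)⁻¹) = 1 := by
      rw [map_mul, map_mul, e3, ← map_mul, ← map_mul, mul_inv_cancel, map_one]
    have := hs3 _ e4
    exact mul_inv_eq_one.mp this
  · push Not at hinj
    obtain ⟨x, hx, hx1⟩ := hinj
    refine ⟨x, hx1, fun h => hker _ _ hx ?_⟩
    rw [map_mul, map_mul, hx, mul_one, ← map_mul, mul_inv_cancel, map_one]

end Pool.Agent.Helper28.LCN
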