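import Pool.Agent.Helper28.LCN.FFam
import Pool.Agent.Helper28.LCN.RepU
import Pool.Agent.Helper28.LCN.Functional

set_option autoImplicit false

namespace Pool.Agent.Helper28.LCN

open Subgroup

/-- A nontrivial torsion-free uniformly locally nilpotent group has an element `x ≠ 1` which commutes with all its
conjugates. -/
theorem exists_abelian_normalClosure {G : Type} [Group G] (hl : LocNilp G) (htf : TorsionFree G)
    (hnt : ∃ g : G, g ≠ 1)
    (hcls : ∀ k : ℕ, ∃ N : ℕ, ∀ x : Fin k → G, ∀ w : List (Fin k), N ≤ w.length → ∀ i, E x w (x i) = 1) :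
    ∃ x : G, x ≠ 1 ∧ ∀ h : G, x * (h * x * h⁻¹) = (h * x * h⁻¹) * x := by
  obtain ⟨R, _, _, ρ, h1, h2, h3⟩ := exists_rep (G := G) (fun B hB b hb hb1 => exists_functional htf B hB b hb hb1)
    (fun s => ⟨closure (s : Set G), fun g hg => subset_closure hg, fun K hK hKn hna =>
      exists_abelian_normal' _ (hl s) K hK hKn hna⟩) hcls
  exact exists_comm_conj hnt R ρ h1 h2 h3

theorem main_theorem {G : Type} [Group G] [TopologicalSpace G] [IsTopologicalGroup G]
    [LocallyCompactSpace G] [T2Space G] (hl : LocNilp G) (hab : ∃ a b : G, a * b ≠ b * a) (htf : TorsionFree G) :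
    HasProperClosedIsolatedNormal G := by
  have hnt : ∃ g : G, g ≠ 1 := by
    obtain ⟨a, b, hab⟩ := hab
    exact ⟨a, by rintro rfl; simp at hab⟩
  by_cases hd : IsOpen ({1} : Set G)
  · have : DiscreteTopology G := discreteTopology_of_isOpen_singleton_one hd
    obtain ⟨g, hg⟩ := hnt
    exact main hl htf hab hg (isOpen_discrete _)
  by_contra hno
  obtain ⟨x, hx, hxc⟩ := exists_abelian_normalClosure hl htf hnt (uniform hl htf hd hno)
  -- `x` commutes with all its conjugates, which pairwise commute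
  have hcc : ∀ g h : G, Commute (g * x * g⁻¹) (h * x * h⁻¹) := by
    intro g h
    have h1 : Commute x (g⁻¹ * h * x * (g⁻¹ * h)⁻¹) := hxc (g⁻¹ * h)
    have h2 : h * x * h⁻¹ = g * (g⁻¹ * h * x * (g⁻¹ * h)⁻¹) * g⁻¹ := by group
    rw [h2]
    exact (Commute.conj_iff g).mpr h1
  let S : Set G := {y | ∃ h : G, y = h * x * h⁻¹}
  have hxS : x ∈ S := ⟨1, by simp⟩
  have hxC : x ∈ centralizer S := by
    rw [mem_centralizer_iff]
    rintro _ ⟨h, rfl⟩
    have := hcc h 1
    simp only [inv_one, mul_one, one_mul] at this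
    exact this.eq
  apply hno
  by_cases htop : centralizer S = ⊤
  · -- then `x` is central
    refine of_center hl htf hab hx ?_
    rw [mem_center_iff]
    intro g
    have hg : g ∈ centralizer S := by rw [htop]; exact mem_top g
    exact (mem_centralizer_iff.mp hg x hxS).symm
  · refine ⟨centralizer S, ?_, ?_, ?_, htop, ?_⟩
    · refine ⟨fun c hc k => ?_⟩
      rw [mem_centralizer_iff] at hc ⊢
      rintro _ ⟨h, rfl⟩
      have h1 : Commute (k⁻¹ * h * x * (k⁻¹ * h)⁻¹) c := hc _ ⟨k⁻¹ * h, rfl⟩
      have h2 : h * x * h⁻¹ = k * (k⁻¹ * h * x * (k⁻¹ * h)⁻¹) * k⁻¹ := by group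
      rw [h2]
      exact ((Commute.conj_iff k).mpr h1).eq
    · have : (centralizer S : Set G) = ⋂ h : G, {c | (h * x * h⁻¹) * c = c * (h * x * h⁻¹)} := by
        ext c
        simp only [SetLike.mem_coe, mem_centralizer_iff, Set.mem_iInter, Set.mem_ofPred_eq]
        constructor
        · intro hc h
          exact hc _ ⟨h, rfl⟩
        · rintro hc _ ⟨h, rfl⟩
          exact hc h
      rw [this]
      exact isClosed_iInter fun h => isClosed_eq (continuous_const.mul continuous_id)
        (continuous_id.mul continuous_const)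
    · intro hbot
      rw [hbot, mem_bot] at hxC
      exact hx hxC
    · intro g n hn hg
      rw [mem_centralizer_iff] at hg ⊢
      rintro _ ⟨h, rfl⟩
      have h1 : Commute (g ^ n) (h * x * h⁻¹) := (hg _ ⟨h, rfl⟩).symm
      exact (root_comm hl htf hn h1).eq.symm

end Pool.Agent.Helper28.LCN
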