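import Pool.Agent.Helper28.LCN.Poly

set_option autoImplicit false

namespace Pool.Agent.Helper28.LCN

open Polynomial

/-- binomial polynomials -/
noncomputable def bin (j : ℕ) : ℚ[X] := C ((j.factorial : ℚ)⁻¹) * descPochhammer ℚ j

lemma bin_eval (j t : ℕ) : (bin j).eval (t : ℚ) = (t.choose j : ℚ) := by
  unfold bin
  rw [eval_mul, eval_C, descPochhammer_eval_eq_descFactorial, Nat.descFactorial_eq_factorial_mul_choose]
  push_cast
  rw [← mul_assoc, inv_mul_cancel₀ (by exact_mod_cast j.factorial_ne_zero), one_mul]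

lemma bin_coeff_zero (j : ℕ) : (bin j).coeff 0 = if j = 0 then 1 else 0 := by
  rw [coeff_zero_eq_eval_zero]
  have h := bin_eval j 0
  rw [Nat.cast_zero] at h
  rw [h]
  cases j with
  | zero => simp
  | succ j => simp

lemma bin_zero_coeff_one : (bin 0).coeff 1 = 0 := by
  unfold bin
  simp [coeff_one]

lemma bin_one_coeff_one : (bin 1).coeff 1 = 1 := by
  unfold bin
  simp [descPochhammer_one]

lemma evn_map {R : Type} [Ring R] [Algebra ℚ R] (t : ℕ) (q : ℚ[X]) :
    evn t (q.map (algebraMap ℚ R)) = algebraMap ℚ R (q.eval (t : ℚ)) := by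
  have h : (evn t : R[X] →+* R).comp (mapRingHom (algebraMap ℚ R)) =
      (algebraMap ℚ R).comp (evalRingHom (t : ℚ)) := by
    apply Polynomial.ringHom_ext
    · intro a
      rw [RingHom.comp_apply, coe_mapRingHom, map_C, evn_C, RingHom.comp_apply, coe_evalRingHom, eval_C]
    · rw [RingHom.comp_apply, coe_mapRingHom, map_X, evn_X, RingHom.comp_apply, coe_evalRingHom, eval_X,
        map_natCast]
  exact RingHom.congr_fun h q

lemma one_add_pow_eq {R : Type} [Ring R] (u : R) (n : ℕ) (hn : u ^ n = 0) (t : ℕ) :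
    (∑ j ∈ Finset.range (n + 2), u ^ j * (t.choose j : R)) = (u + 1) ^ t := by
  rw [(Commute.one_right u).add_pow t]
  have h1 : (∑ j ∈ Finset.range (n + 2), u ^ j * (t.choose j : R)) =
      ∑ j ∈ Finset.range (n + 2 + (t + 1)), u ^ j * (t.choose j : R) := by
    apply Finset.sum_subset (Finset.range_mono (by omega))
    intro j _ hj
    have hj' : n ≤ j := by
      rw [Finset.mem_range] at hj; omega
    rw [← Nat.sub_add_cancel hj', pow_add, hn, mul_zero, zero_mul]
  have h2 : (∑ m ∈ Finset.range (t + 1), u ^ m * 1 ^ (t - m) * (t.choose m : R)) =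
      ∑ j ∈ Finset.range (n + 2 + (t + 1)), u ^ j * (t.choose j : R) := by
    rw [← Finset.sum_subset (Finset.range_mono (show t + 1 ≤ n + 2 + (t + 1) by omega))]
    · exact Finset.sum_congr rfl fun j _ => by rw [one_pow, mul_one]
    · intro j _ hj
      rw [Finset.mem_range] at hj
      rw [Nat.choose_eq_zero_of_lt (by omega), Nat.cast_zero, mul_zero]
  rw [h1, h2]

lemma aeval_mem_of_pow {R : Type} [Ring R] [Algebra ℚ R] (V : Submodule ℚ R) (u : R) (m : ℕ)
    (h : ∀ i, m ≤ i → u ^ i ∈ V) (H : ℚ[X]) : aeval u (X ^ m * H) ∈ V := by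
  rw [map_mul, map_pow, aeval_X, aeval_eq_sum_range, Finset.mul_sum]
  refine V.sum_mem fun i _ => ?_
  rw [mul_smul_comm, ← pow_add]
  exact V.smul_mem _ (h _ (by omega))

lemma pow_mem_of_log {R : Type} [Ring R] [Algebra ℚ R] (V : Submodule ℚ R) (u : R) (n : ℕ)
    (hn : u ^ n = 0) (F : ℚ[X]) (hV : ∀ i, 1 ≤ i → (aeval u (X + X ^ 2 * F)) ^ i ∈ V) :
    ∀ m j, 1 ≤ j → n ≤ j + m → u ^ j ∈ V := by
  intro m
  induction m with
  | zero =>
    intro j _ hj
    rw [← Nat.sub_add_cancel (show n ≤ j by omega), pow_add, hn, mul_zero]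
    exact V.zero_mem
  | succ m ih =>
    intro j hj hjm
    have hd : (X * F : ℚ[X]) ∣ (1 + X * F) ^ j - 1 ^ j := by
      have := sub_dvd_pow_sub_pow (1 + X * F : ℚ[X]) 1 j
      rwa [add_sub_cancel_left] at this
    obtain ⟨K, hK⟩ := hd
    have e : (X + X ^ 2 * F : ℚ[X]) ^ j = X ^ j + X ^ (j + 1) * (F * K) := by
      have e1 : (X + X ^ 2 * F : ℚ[X]) = X * (1 + X * F) := by ring
      have e2 : ((1 + X * F : ℚ[X])) ^ j = 1 + X * F * K := by
        rw [← hK, one_pow]; ring
      rw [e1, mul_pow, e2]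
      ring
    have h1 := hV j hj
    rw [← map_pow, e, map_add, map_pow, aeval_X] at h1
    have h2 := aeval_mem_of_pow V u (j + 1) (fun i hi => ih i (by omega) (by omega)) (F * K)
    have h3 := V.sub_mem h1 h2
    rwa [add_sub_cancel_right] at h3

/-- the logarithm of a unipotent element -/
theorem exists_log {R : Type} [Ring R] [Algebra ℚ R] {G : Type} [Group G] (ρ : G →* R) (g : G) (n : ℕ)
    (hn : (ρ g - 1) ^ n = 0) :
    ∃ ζ ∈ TD ρ, ρ g ∈ Algebra.adjoin ℚ {ζ} ∧ (ζ = 0 → ρ g = 1) := by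
  set u : R := ρ g - 1 with hu
  let p : R[X] := ∑ j ∈ Finset.range (n + 2), C (u ^ j) * (bin j).map (algebraMap ℚ R)
  have hev : ∀ t : ℕ, evn t p = ρ (g ^ t) := by
    intro t
    have : evn t p = ∑ j ∈ Finset.range (n + 2), u ^ j * (t.choose j : R) := by
      simp only [p]
      rw [map_sum]
      refine Finset.sum_congr rfl fun j _ => ?_
      rw [map_mul, evn_C, evn_map, bin_eval, map_natCast]
    rw [this, one_add_pow_eq u n hn t, hu, sub_add_cancel, map_pow]
  have h0 : p.coeff 0 = 1 := by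
    simp only [p]
    rw [finsetSum_coeff, Finset.sum_eq_single 0]
    · rw [coeff_C_mul, coeff_map, bin_coeff_zero]; simp
    · intro j _ hj
      rw [coeff_C_mul, coeff_map, bin_coeff_zero, if_neg hj, map_zero, mul_zero]
    · intro h; simp at h
  let F : ℚ[X] := ∑ j ∈ Finset.range n, C ((bin (j + 2)).coeff 1) * X ^ j
  have h1 : p.coeff 1 = aeval u (X + X ^ 2 * F) := by
    simp only [p, F]
    rw [finsetSum_coeff, Finset.sum_range_succ', Finset.sum_range_succ']
    simp only [coeff_C_mul, coeff_map, zero_add, bin_zero_coeff_one, bin_one_coeff_one, map_zero,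
      map_one, mul_zero, mul_one, add_zero, pow_one]
    rw [map_add, aeval_X, map_mul, map_pow, aeval_X, map_sum, Finset.mul_sum, add_comm]
    congr 1
    refine Finset.sum_congr rfl fun j _ => ?_
    have hc := Algebra.commutes (A := R) ((bin (j + 2)).coeff 1) (u ^ 2)
    rw [map_mul, aeval_C, map_pow, aeval_X]
    show u ^ (j + 2) * _ = _
    rw [← mul_assoc (u ^ 2), ← hc, mul_assoc, ← pow_add, add_comm 2 j]
    exact (Algebra.commutes _ _).symm
  refine ⟨p.coeff 1, ⟨p, h0, rfl, fun t => ⟨g ^ t, hev t⟩⟩, ?_, ?_⟩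
  · have h2 := pow_mem_of_log (Subalgebra.toSubmodule (Algebra.adjoin ℚ {p.coeff 1})) u n hn F
      (fun i _ => by
        rw [← h1]
        exact Subalgebra.pow_mem _ (Algebra.self_mem_adjoin_singleton ℚ (p.coeff 1)) i) n 1 le_rfl (by omega)
    rw [pow_one] at h2
    have h3 : u ∈ Algebra.adjoin ℚ {p.coeff 1} := h2
    have h4 := Subalgebra.add_mem _ h3 (Subalgebra.one_mem _)
    rwa [hu, sub_add_cancel] at h4
  · intro hz
    have h2 := pow_mem_of_log (⊥ : Submodule ℚ R) u n hn F
      (fun i hi => by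
        rw [← h1, hz, zero_pow (by omega)]
        exact Submodule.zero_mem _) n 1 le_rfl (by omega)
    rw [pow_one, Submodule.mem_bot, hu, sub_eq_zero] at h2
    exact h2

end Pool.Agent.Helper28.LCN
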