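import Pool.Agent.Helper28.LCN.Poly

set_option autoImplicit false

namespace Pool.Agent.Helper28.LCN

open Polynomial

section aux
variable {R : Type} [Ring R]

lemma coeff_zero_pow (a b : R) (M : ℕ) : ((C a + X * C b) ^ M : R[X]).coeff 0 = a ^ M := by
  induction M with
  | zero => simp
  | succ M ih =>
    rw [pow_succ, mul_coeff_zero, ih, pow_succ]
    simp

lemma coeff_one_pow (a b : R) (M : ℕ) : ((C a + X * C b) ^ M : R[X]).coeff 1 =
    ∑ i ∈ Finset.range M, a ^ i * b * a ^ (M - 1 - i) := by
  induction M with
  | zero => simp [coeff_one]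
  | succ M ih =>
    rw [pow_succ, mul_coeff_one, ih, coeff_zero_pow, Finset.sum_range_succ]
    have h1 : (C a + X * C b : R[X]).coeff 1 = b := by
      rw [coeff_add, coeff_C, coeff_X_mul]; simp
    have h0 : (C a + X * C b : R[X]).coeff 0 = a := by simp
    rw [h1, h0, Finset.sum_mul, add_comm]
    congr 1
    · apply Finset.sum_congr rfl
      intro i hi
      rw [Finset.mem_range] at hi
      rw [mul_assoc (a ^ i * b), ← pow_succ]
      congr 2
      omega
    · have : M + 1 - 1 - M = 0 := by omega
      rw [this, pow_zero, mul_one]

end aux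

/-- If `A z₁ ⋯ z_m A = 0` for all short products from a Lie algebra `Λ` of nilpotent elements of index `n`, then
for all products. -/
theorem C3 {R : Type} [Ring R] [Algebra ℚ R] (Λ : Submodule ℚ R)
    (hbr : ∀ a ∈ Λ, ∀ b ∈ Λ, a * b - b * a ∈ Λ) (n : ℕ) (hn : ∀ a ∈ Λ, a ^ n = 0) (k : ℕ) (hk : n ≤ k)
    (A : R) (hA : ∀ z : List R, (∀ a ∈ z, a ∈ Λ) → z.length ≤ k → A * z.prod * A = 0) :
    ∀ z : List R, (∀ a ∈ z, a ∈ Λ) → A * z.prod * A = 0 := by
  suffices H : ∀ m : ℕ, ∀ z : List R, (∀ a ∈ z, a ∈ Λ) → z.length = m → A * z.prod * A = 0 from
    fun z hz => H z.length z hz rfl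
  intro m
  induction m using Nat.strong_induction_on with
  | _ m IH =>
    by_cases hm : m ≤ k
    · intro z hz hzl
      exact hA z hz (by omega)
    have hmk : k < m := by omega
    -- swap
    have hS : ∀ (u v : List R) (a b : R), (∀ x ∈ u, x ∈ Λ) → (∀ x ∈ v, x ∈ Λ) → a ∈ Λ → b ∈ Λ →
        u.length + 2 + v.length = m →
        A * (u.prod * (a * (b * v.prod))) * A = A * (u.prod * (b * (a * v.prod))) * A := by
      intro u v a b hu hv ha hb hlen
      have h1 := IH (m - 1) (by omega) (u ++ (a * b - b * a) :: v) (by
        intro x hx
        rw [List.mem_append, List.mem_cons] at hx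
        rcases hx with h | h | h
        · exact hu x h
        · rw [h]; exact hbr a ha b hb
        · exact hv x h) (by
        rw [List.length_append, List.length_cons]; omega)
      rw [List.prod_append, List.prod_cons] at h1
      have h2 : A * (u.prod * (a * (b * v.prod))) * A - A * (u.prod * (b * (a * v.prod))) * A =
          A * (u.prod * ((a * b - b * a) * v.prod)) * A := by noncomm_ring
      rw [h1] at h2
      exact sub_eq_zero.1 h2
    have hS2 : ∀ (a b : R) (v : List R), a ∈ Λ → b ∈ Λ → (∀ x ∈ v, x ∈ Λ) → ∀ j i : ℕ,
        i + j + 1 + v.length = m →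
        A * (a ^ i * b * a ^ j * v.prod) * A = A * (a ^ (i + j) * b * v.prod) * A := by
      intro a b v ha hb hv j
      induction j with
      | zero => intro i _; simp
      | succ j ihj =>
        intro i hlen
        have h1 := hS (List.replicate i a) (List.replicate j a ++ v) b a
          (fun x hx => by rw [List.eq_of_mem_replicate hx]; exact ha)
          (fun x hx => by
            rw [List.mem_append] at hx
            rcases hx with h | h
            · rw [List.eq_of_mem_replicate h]; exact ha
            · exact hv x h) hb ha (by
            rw [List.length_append, List.length_replicate, List.length_replicate]; omega)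
        rw [List.prod_append, List.prod_replicate, List.prod_replicate] at h1
        have h2 := ihj (i + 1) (by omega)
        have e1 : a ^ i * b * a ^ (j + 1) * v.prod = a ^ i * (b * (a * (a ^ j * v.prod))) := by
          rw [pow_succ' a j]; simp only [mul_assoc]
        have e2 : a ^ i * (a * (b * (a ^ j * v.prod))) = a ^ (i + 1) * b * a ^ j * v.prod := by
          rw [pow_succ a i]; simp only [mul_assoc]
        have e3 : i + (j + 1) = i + 1 + j := by omega
        rw [e1, h1, e2, h2, e3]
    have hcl : ∀ r : ℕ, r ≤ m → ∀ a ∈ Λ, ∀ v : List R, (∀ x ∈ v, x ∈ Λ) → v.length = r →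
        A * (a ^ (m - r) * v.prod) * A = 0 := by
      intro r
      induction r with
      | zero =>
        intro _ a ha v _ hvl
        have : v = [] := List.length_eq_zero_iff.1 hvl
        have h0 : a ^ (m - 0) = 0 := pow_eq_zero_of_le (by omega) (hn a ha)
        rw [h0]; simp
      | succ r ihr =>
        intro hrm a ha v hv hvl
        obtain ⟨b, v1, rfl⟩ : ∃ b v1, v = b :: v1 := by
          cases v with
          | nil => simp at hvl
          | cons b v1 => exact ⟨b, v1, rfl⟩
        have hb : b ∈ Λ := hv b (List.mem_cons_self)
        have hv1 : ∀ x ∈ v1, x ∈ Λ := fun x hx => hv x (List.mem_cons_of_mem _ hx)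
        have hv1l : v1.length = r := by
          rw [List.length_cons] at hvl; omega
        set M := m - r with hM
        have hM1 : 1 ≤ M := by omega
        have hP : (C A * ((C a + X * C b) ^ M * C v1.prod) * C A : R[X]) = 0 := by
          apply eq_zero_of_evn
          intro t
          simp only [map_mul, map_pow, map_add, evn_C, evn_X]
          have hmem : a + (t : R) * b ∈ Λ := by
            have : (t : R) * b = (t : ℚ) • b := by
              rw [Algebra.smul_def, map_natCast]
            rw [this]
            exact Λ.add_mem ha (Λ.smul_mem _ hb)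
          exact ihr (by omega) _ hmem v1 hv1 hv1l
        have hc := congrArg (fun p : R[X] => p.coeff 1) hP
        simp only [coeff_mul_C, coeff_C_mul, coeff_zero, coeff_one_pow] at hc
        rw [Finset.sum_mul, Finset.mul_sum, Finset.sum_mul] at hc
        have hall : ∀ i ∈ Finset.range M, A * (a ^ i * b * a ^ (M - 1 - i) * v1.prod) * A =
            A * (a ^ (M - 1) * b * v1.prod) * A := by
          intro i hi
          rw [Finset.mem_range] at hi
          have ei : i + (M - 1 - i) = M - 1 := by omega
          rw [hS2 a b v1 ha hb hv1 (M - 1 - i) i (by omega), ei]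
        rw [Finset.sum_congr rfl hall, Finset.sum_const, Finset.card_range] at hc
        have hMq : (M : ℚ) ≠ 0 := by exact_mod_cast (by omega : M ≠ 0)
        rw [← Nat.cast_smul_eq_nsmul ℚ] at hc
        have hz : A * (a ^ (M - 1) * b * v1.prod) * A = 0 := by
          rcases smul_eq_zero.1 hc with h | h
          · exact absurd h hMq
          · exact h
        have e : m - (r + 1) = M - 1 := by omega
        rw [e, List.prod_cons, ← mul_assoc (a ^ (M - 1))]
        exact hz
    intro z hz hzl
    cases z with
    | nil => simp at hzl; omega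
    | cons b v =>
      have := hcl m le_rfl 0 Λ.zero_mem (b :: v) hz hzl
      rw [Nat.sub_self, pow_zero, one_mul] at this
      exact this

end Pool.Agent.Helper28.LCN
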