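import Pool.Agent.Helper28.LCN.Pol1
import Pool.Agent.Helper28.LCN.Pol3
import Pool.Agent.Helper28.LCN.Log

set_option autoImplicit false

namespace Pool.Agent.Helper28.LCN

open Polynomial

/-- The maximal product argument: a nonzero Lie algebra `Λ` in an associative `ℚ`-algebra whose finite families have
bounded nonzero products gives an element `A ≠ 0` with `A z A = 0` for all products `z` of elements of `Λ`. -/
theorem lieU {R : Type} [Ring R] [Algebra ℚ R] (Λ : Submodule ℚ R)
    (hbr : ∀ a ∈ Λ, ∀ b ∈ Λ, a * b - b * a ∈ Λ) (hne : ∃ a ∈ Λ, a ≠ 0)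
    (hk : ∀ k, ∃ N, Fam Λ k N) :
    ∃ A : R, A ≠ 0 ∧ ∀ z : List R, (∀ a ∈ z, a ∈ Λ) → A * z.prod * A = 0 := by
  classical
  obtain ⟨n, hn⟩ := hk 1
  have hn' : ∀ a ∈ Λ, a ^ n = 0 := by
    intro a ha
    have := hn (fun _ => a) (fun _ => ha) (List.replicate n 0) (by simp)
    simpa using this
  obtain ⟨N0, hN0⟩ := hk (n + 1)
  let P : ℕ → Prop := fun L => ∃ x : Fin (n + 1) → R, (∀ i, x i ∈ Λ) ∧ ∃ w : List (Fin (n + 1)),
    w.length = L ∧ (w.map x).prod ≠ 0
  have hP1 : P 1 := by
    obtain ⟨a, ha, ha0⟩ := hne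
    exact ⟨fun _ => a, fun _ => ha, [0], by simp, by simpa using ha0⟩
  have hPb : ∀ L, P L → L < N0 := by
    rintro L ⟨x, hx, w, hw, hwx⟩
    by_contra hcon
    exact hwx (hN0 x hx w (by omega))
  have h1N : 1 ≤ N0 := (hPb 1 hP1).le
  set N := Nat.findGreatest P N0 with hN
  have hPN : P N := Nat.findGreatest_spec (P := P) h1N hP1
  have hN1 : 1 ≤ N := Nat.le_findGreatest h1N hP1
  have hF : Fam Λ (n + 1) (N + 1) := by
    intro x hx w hw
    by_contra hcon
    have hPw : P w.length := ⟨x, hx, w, rfl, hcon⟩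
    have h2 := hPb _ hPw
    have := Nat.le_findGreatest (P := P) h2.le hPw
    omega
  obtain ⟨x, hx, w, hw, hA⟩ := hPN
  refine ⟨(w.map x).prod, hA, ?_⟩
  set A := (w.map x).prod with hAdef
  have hxA : ∀ j, x j * A = 0 := by
    intro j
    have := hF x hx (j :: w) (by simp [hw])
    simpa using this
  have hspan : ∀ r ∈ Ideal.span (x '' ((Finset.univ : Finset (Fin (n + 1))) : Set (Fin (n + 1)))), r * A = 0 := by
    intro r hr
    induction hr using Submodule.span_induction with
    | mem y hy =>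
      obtain ⟨j, _, rfl⟩ := hy
      exact hxA j
    | zero => simp
    | add y z _ _ h1 h2 => rw [add_mul, h1, h2, add_zero]
    | smul c y _ h1 => rw [smul_eq_mul, mul_assoc, h1, mul_zero]
  apply C3 Λ hbr n hn' (n + 1) (Nat.le_succ n) A
  intro z hz hzl
  rcases Nat.eq_zero_or_pos z.length with h0 | hpos
  · have hz0 : z = [] := List.length_eq_zero_iff.mp h0
    rw [hz0]
    have := hF x hx (w ++ w) (by rw [List.length_append, hw]; omega)
    rw [List.map_append, List.prod_append] at this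
    simpa using this
  · obtain ⟨m, hm⟩ : ∃ m, z.length = m + 1 := ⟨z.length - 1, by omega⟩
    have := C1 (n + 1) N m R Λ hbr hF x hx w hw Finset.univ (by simp; omega) z hz hm
    exact hspan _ this

end Pool.Agent.Helper28.LCN
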