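import Pool.Agent.Helper28.LCN.Poly

set_option autoImplicit false

namespace Pool.Agent.Helper28.LCN

open Polynomial

section aux
variable {R : Type} [Ring R] [Algebra ℚ R]

/-- polynomials with all coefficients in `Λ` -/
noncomputable def LamP (Λ : Submodule ℚ R) : Submodule ℚ R[X] where
  carrier := {p | ∀ n, p.coeff n ∈ Λ}
  zero_mem' := by intro n; simp
  add_mem' := by intro a b ha hb n; rw [coeff_add]; exact Λ.add_mem (ha n) (hb n)
  smul_mem' := by intro c a ha n; rw [coeff_smul]; exact Λ.smul_mem c (ha n)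

lemma mem_LamP (Λ : Submodule ℚ R) (p : R[X]) : p ∈ LamP Λ ↔ ∀ n, p.coeff n ∈ Λ := Iff.rfl

lemma LamP_comm (Λ : Submodule ℚ R) (h : ∀ a ∈ Λ, ∀ b ∈ Λ, a * b - b * a ∈ Λ) :
    ∀ p ∈ LamP Λ, ∀ q ∈ LamP Λ, p * q - q * p ∈ LamP Λ := by
  intro p hp q hq n
  have e : ∑ x ∈ Finset.HasAntidiagonal.antidiagonal n, q.coeff x.1 * p.coeff x.2 =
      ∑ x ∈ Finset.HasAntidiagonal.antidiagonal n, q.coeff x.2 * p.coeff x.1 :=
    (Finset.Nat.sum_antidiagonal_swap (n := n) (f := fun x => q.coeff x.1 * p.coeff x.2)).symm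
  rw [coeff_sub, coeff_mul, coeff_mul, e, ← Finset.sum_sub_distrib]
  exact Λ.sum_mem fun x _ => h _ (hp x.1) _ (hq x.2)

lemma evn_mem_of_LamP (Λ : Submodule ℚ R) (t : ℕ) (p : R[X]) (hp : p ∈ LamP Λ) :
    evn t p ∈ Λ := by
  rw [evn_apply, Polynomial.sum]
  refine Λ.sum_mem fun i _ => ?_
  have : p.coeff i * (t : R) ^ i = ((t : ℚ) ^ i) • p.coeff i := by
    rw [Algebra.smul_def, map_pow, map_natCast, ← Nat.cast_pow]
    exact (Nat.cast_commute _ _).symm.eq
  rw [this]
  exact Λ.smul_mem _ (hp i)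

lemma Fam_LamP (Λ : Submodule ℚ R) (k N : ℕ) (h : Fam Λ k N) : Fam (LamP Λ) k N := by
  intro f hf w hw
  apply eq_zero_of_evn
  intro t
  rw [map_list_prod, List.map_map]
  exact h (evn t ∘ f) (fun i => evn_mem_of_LamP Λ t _ (hf i)) w hw

lemma coeff_mem_span (T : Set R) (p : R[X]) (hp : p ∈ Ideal.span (C '' T)) (n : ℕ) :
    p.coeff n ∈ Ideal.span T := by
  refine Submodule.span_induction (p := fun p _ => ∀ n, p.coeff n ∈ Ideal.span T)
    ?_ ?_ ?_ ?_ hp n
  · rintro _ ⟨a, ha, rfl⟩ n
    rw [coeff_C]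
    split_ifs
    · exact Ideal.subset_span ha
    · exact Submodule.zero_mem _
  · intro n
    rw [coeff_zero]
    exact Submodule.zero_mem _
  · intro p q _ _ hp hq n
    rw [coeff_add]
    exact Submodule.add_mem _ (hp n) (hq n)
  · intro c p _ hp n
    rw [smul_eq_mul, coeff_mul]
    exact Submodule.sum_mem _ fun x _ => Ideal.mul_mem_left _ _ (hp x.2)

lemma commute_list (Λ : Submodule ℚ R) (h : ∀ a ∈ Λ, ∀ b ∈ Λ, a * b - b * a ∈ Λ) (x : R)
    (hx : x ∈ Λ) : ∀ z : List R, (∀ a ∈ z, a ∈ Λ) → ∃ L : List (List R),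
      (∀ l ∈ L, l.length = z.length ∧ ∀ a ∈ l, a ∈ Λ) ∧
      x * z.prod = z.prod * x + (L.map List.prod).sum
  | [], _ => ⟨[], by simp, by simp⟩
  | a :: z, hz => by
    obtain ⟨L, hL, hLe⟩ := commute_list Λ h x hx z (fun b hb => hz b (List.mem_cons_of_mem _ hb))
    refine ⟨((x * a - a * x) :: z) :: L.map (fun l => a :: l), ?_, ?_⟩
    · intro l hl
      rw [List.mem_cons] at hl
      rcases hl with rfl | hl
      · refine ⟨by simp, fun b hb => ?_⟩
        rw [List.mem_cons] at hb
        rcases hb with rfl | hb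
        · exact h _ hx _ (hz a (by simp))
        · exact hz b (List.mem_cons_of_mem _ hb)
      · rw [List.mem_map] at hl
        obtain ⟨l', hl', rfl⟩ := hl
        refine ⟨by simp [(hL l' hl').1], fun b hb => ?_⟩
        rw [List.mem_cons] at hb
        rcases hb with rfl | hb
        · exact hz b (by simp)
        · exact (hL l' hl').2 b hb
    · have e1 : (L.map (fun l => a :: l)).map List.prod = L.map (fun l => a * l.prod) := by
        simp [List.map_map, Function.comp_def]
      rw [List.map_cons, List.sum_cons, e1, List.sum_map_mul_left, List.prod_cons, List.prod_cons]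
      have e2 : x * (a * z.prod) = (x * a - a * x) * z.prod + a * (x * z.prod) := by noncomm_ring
      rw [e2, hLe]
      noncomm_ring

/-- the deformed family -/
noncomputable def defam {k : ℕ} (x : Fin k → R) (j : Fin k) (y : R) : Fin k → R[X] :=
  Function.update (fun i => C (x i)) j (C (x j) + X * C y)

lemma C_mem_LamP (Λ : Submodule ℚ R) (a : R) (ha : a ∈ Λ) : (C a : R[X]) ∈ LamP Λ := by
  intro n
  rw [coeff_C]
  split_ifs
  · exact ha
  · exact Submodule.zero_mem _

lemma XC_mem_LamP (Λ : Submodule ℚ R) (a : R) (ha : a ∈ Λ) : (X * C a : R[X]) ∈ LamP Λ := by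
  intro n
  cases n with
  | zero => rw [coeff_X_mul_zero]; exact Submodule.zero_mem _
  | succ n => rw [coeff_X_mul]; exact C_mem_LamP Λ a ha n

lemma defam_mem {k : ℕ} (Λ : Submodule ℚ R) (x : Fin k → R) (hx : ∀ i, x i ∈ Λ) (j : Fin k)
    (y : R) (hy : y ∈ Λ) (i : Fin k) : defam x j y i ∈ LamP Λ := by
  unfold defam
  by_cases h : i = j
  · subst h
    rw [Function.update_self]
    exact Submodule.add_mem _ (C_mem_LamP Λ _ (hx i)) (XC_mem_LamP Λ y hy)
  · rw [Function.update_of_ne h]
    exact C_mem_LamP Λ _ (hx i)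

lemma defam_zero {k : ℕ} (x : Fin k → R) (j : Fin k) (y : R) (i : Fin k) :
    constantCoeff (defam x j y i) = x i := by
  unfold defam
  by_cases h : i = j
  · subst h
    rw [Function.update_self]
    simp
  · rw [Function.update_of_ne h]
    simp

lemma C1_step {k N : ℕ} (Λ : Submodule ℚ R) (hΛ : Fam Λ k (N + 1)) (x : Fin k → R)
    (hx : ∀ i, x i ∈ Λ) (w : List (Fin k)) (hw : w.length = N) (j : Fin k) (y : R) (hy : y ∈ Λ) :
    (w.map x).prod * y + (w.map (defam x j y)).prod.coeff 1 * x j = 0 := by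
  have h1 := Fam_LamP Λ k (N + 1) hΛ (defam x j y) (defam_mem Λ x hx j y hy) (w ++ [j])
    (by simp [hw])
  rw [List.map_append, List.prod_append, List.map_singleton, List.prod_singleton] at h1
  have h2 : ((w.map (defam x j y)).prod * defam x j y j).coeff 1 = 0 := by rw [h1, coeff_zero]
  rw [mul_coeff_one] at h2
  have h3 : (w.map (defam x j y)).prod.coeff 0 = (w.map x).prod := by
    rw [← constantCoeff_apply, map_list_prod, List.map_map]
    congr 1
    refine List.map_congr_left fun i _ => ?_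
    exact defam_zero x j y i
  have h4 : (defam x j y j).coeff 0 = x j := by
    rw [← constantCoeff_apply]
    exact defam_zero x j y j
  have h5 : (defam x j y j).coeff 1 = y := by
    unfold defam
    rw [Function.update_self, coeff_add, coeff_X_mul, coeff_C_zero, coeff_C_succ, zero_add]
  rw [h3, h4, h5] at h2
  exact h2

end aux

/-- `Ideal R` is the type of left ideals of the noncommutative ring `R`. -/
theorem C1 (k N : ℕ) (m : ℕ) : ∀ (R : Type) [Ring R] [Algebra ℚ R] (Λ : Submodule ℚ R)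
    (_ : ∀ a ∈ Λ, ∀ b ∈ Λ, a * b - b * a ∈ Λ) (_ : Fam Λ k (N + 1)) (x : Fin k → R) (_ : ∀ i, x i ∈ Λ)
    (w : List (Fin k)) (_ : w.length = N) (S : Finset (Fin k)) (_ : m + 1 ≤ S.card)
    (z : List R) (_ : ∀ a ∈ z, a ∈ Λ) (_ : z.length = m + 1),
    (w.map x).prod * z.prod ∈ Ideal.span (x '' (S : Set (Fin k))) := by
  induction m with
  | zero =>
    intro R _ _ Λ hcomm hΛ x hx w hw S hS z hz hzl
    obtain ⟨y, rfl⟩ := List.length_eq_one_iff.1 hzl
    obtain ⟨j, hj⟩ := Finset.card_pos.1 (by omega : 0 < S.card)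
    have h := C1_step Λ hΛ x hx w hw j y (hz y (by simp))
    rw [List.prod_singleton, eq_neg_of_add_eq_zero_left h]
    exact Submodule.neg_mem _ (Ideal.mul_mem_left _ _ (Ideal.subset_span ⟨j, hj, rfl⟩))
  | succ m ih =>
    intro R _ _ Λ hcomm hΛ x hx w hw S hS z hz hzl
    obtain ⟨y, z1, rfl⟩ := List.exists_cons_of_length_eq_add_one hzl
    obtain ⟨j, hj⟩ := Finset.card_pos.1 (by omega : 0 < S.card)
    have hy : y ∈ Λ := hz y (by simp)
    have hz1 : ∀ a ∈ z1, a ∈ Λ := fun a ha => hz a (List.mem_cons_of_mem _ ha)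
    have hl1 : z1.length = m + 1 := by simpa using hzl
    have h := C1_step Λ hΛ x hx w hw j y hy
    set W := (w.map (defam x j y)).prod with hW
    obtain ⟨L, hL, hLe⟩ := commute_list Λ hcomm (x j) (hx j) z1 hz1
    have key : ∀ l ∈ L, W.coeff 1 * l.prod ∈ Ideal.span (x '' (S : Set (Fin k))) := by
      intro l hl
      obtain ⟨hll, hlΛ⟩ := hL l hl
      have h1 := ih R[X] (LamP Λ) (LamP_comm Λ hcomm) (Fam_LamP Λ k (N + 1) hΛ) (defam x j y)
        (defam_mem Λ x hx j y hy) w hw (S.erase j)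
        (by rw [Finset.card_erase_of_mem hj]; omega) (l.map C)
        (by
          intro a ha
          obtain ⟨b, hb, rfl⟩ := List.mem_map.1 ha
          exact C_mem_LamP Λ b (hlΛ b hb))
        (by rw [List.length_map, hll, hl1])
      have h2 : defam x j y '' ((S.erase j : Finset (Fin k)) : Set (Fin k)) =
          C '' (x '' ((S.erase j : Finset (Fin k)) : Set (Fin k))) := by
        rw [Set.image_image]
        refine Set.image_congr fun i hi => ?_
        have hij : i ≠ j := (Finset.mem_erase.1 (Finset.mem_coe.1 hi)).1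
        unfold defam
        rw [Function.update_of_ne hij]
      rw [h2] at h1
      have h3 := coeff_mem_span _ _ h1 1
      have h4 : (l.map (C : R → R[X])).prod = C l.prod := by
        have := map_list_prod (C : R →+* R[X]) l
        exact this.symm
      rw [h4, coeff_mul_C] at h3
      refine Ideal.span_mono (Set.image_mono ?_) h3
      intro i hi
      exact Finset.mem_coe.2 (Finset.mem_of_mem_erase (Finset.mem_coe.1 hi))
    have hsum : W.coeff 1 * (L.map List.prod).sum ∈ Ideal.span (x '' (S : Set (Fin k))) := by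
      clear hLe hL
      induction L with
      | nil => simp
      | cons l L ihL =>
        rw [List.map_cons, List.sum_cons, mul_add]
        exact Submodule.add_mem _ (key l (by simp))
          (ihL fun l' hl' => key l' (List.mem_cons_of_mem _ hl'))
    have e : (w.map x).prod * (y :: z1).prod = -(W.coeff 1 * z1.prod * x j +
        W.coeff 1 * (L.map List.prod).sum) := by
      have e1 : (w.map x).prod * y = -(W.coeff 1 * x j) := eq_neg_of_add_eq_zero_left h
      rw [List.prod_cons, ← mul_assoc, e1, neg_mul, mul_assoc, hLe, mul_add, mul_assoc]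
    rw [e]
    refine Submodule.neg_mem _ (Submodule.add_mem _ ?_ hsum)
    exact Ideal.mul_mem_left _ _ (Ideal.subset_span ⟨j, hj, rfl⟩)


end Pool.Agent.Helper28.LCN
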