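import Mathlib

set_option autoImplicit false

namespace Pool.Agent.Helper28.LCN

open Polynomial

section poly
variable {R : Type} [Ring R]

/-- evaluation of a polynomial with coefficients in a noncommutative ring at a natural number -/
noncomputable def evn (t : ℕ) : R[X] →+* R :=
  Polynomial.eval₂RingHom' (RingHom.id R) (t : R) (fun a => (Nat.cast_commute t a).symm)

@[simp] lemma evn_C (t : ℕ) (a : R) : evn t (C a) = a := by
  simp [evn, eval₂RingHom']

@[simp] lemma evn_X (t : ℕ) : evn t (X : R[X]) = t := by
  simp [evn, eval₂RingHom']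

lemma evn_apply (t : ℕ) (p : R[X]) : evn t p = p.sum (fun i a => a * (t : R) ^ i) := by
  simp [evn, eval₂RingHom', eval₂_eq_sum]

variable [Algebra ℚ R]

/-- A polynomial whose values at all natural numbers lie in a rational subspace has all coefficients there. -/
lemma coeff_mem_of_evn (V : Submodule ℚ R) (p : R[X]) (h : ∀ t : ℕ, evn t p ∈ V) (n : ℕ) :
    p.coeff n ∈ V := by
  by_contra hn
  obtain ⟨f, hf, hV⟩ := Submodule.exists_le_ker_of_notMem hn
  let q : ℚ[X] := ∑ i ∈ Finset.range (p.natDegree + 1), monomial i (f (p.coeff i))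
  have hq : ∀ i, q.coeff i = f (p.coeff i) := by
    intro i
    simp only [q, finsetSum_coeff, coeff_monomial]
    rw [Finset.sum_ite_eq' (Finset.range (p.natDegree + 1)) i (fun i => f (p.coeff i))]
    split_ifs with hi
    · rfl
    · rw [coeff_eq_zero_of_natDegree_lt (by simpa using hi), map_zero]
  have hev : ∀ t : ℕ, q.eval (t : ℚ) = 0 := by
    intro t
    have h1 : f (evn t p) = 0 := hV (h t)
    rw [evn_apply, sum_over_range _ (by simp), map_sum] at h1
    rw [← h1]
    simp only [q, eval_finsetSum, eval_monomial]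
    refine Finset.sum_congr rfl fun i _ => ?_
    have : p.coeff i * (t : R) ^ i = ((t : ℚ) ^ i) • p.coeff i := by
      rw [Algebra.smul_def, map_pow, map_natCast, ← Nat.cast_pow]
      exact (Nat.cast_commute _ _).symm.eq
    rw [this, map_smul, smul_eq_mul, mul_comm]
  have hq0 : q = 0 := by
    apply eq_zero_of_infinite_isRoot
    apply Set.infinite_of_injective_forall_mem (f := fun t : ℕ => (t : ℚ)) Nat.cast_injective
    intro t
    exact hev t
  apply hf
  rw [← hq n, hq0, coeff_zero]

lemma eq_zero_of_evn (p : R[X]) (h : ∀ t : ℕ, evn t p = 0) : p = 0 := by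
  ext n
  have := coeff_mem_of_evn (⊥ : Submodule ℚ R) p (fun t => by rw [h t]; exact Submodule.zero_mem _) n
  simpa using this

end poly

/-- products of at least `N` factors from a family of `k` elements of `Λ` vanish -/
def Fam {R : Type} [Ring R] [Algebra ℚ R] (Λ : Submodule ℚ R) (k N : ℕ) : Prop :=
  ∀ x : Fin k → R, (∀ i, x i ∈ Λ) → ∀ w : List (Fin k), N ≤ w.length → (w.map x).prod = 0

/-- tangent vectors at `1` of polynomial curves in the image of `ρ` -/
def TD {R : Type} [Ring R] {G : Type} [Group G] (ρ : G →* R) : Set R :=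
  {η | ∃ p : R[X], p.coeff 0 = 1 ∧ p.coeff 1 = η ∧ ∀ t : ℕ, ∃ g : G, evn t p = ρ g}

end Pool.Agent.Helper28.LCN
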