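import Mathlib

set_option autoImplicit false

namespace Pool.Agent.Helper28.LCN

open scoped commutatorElement

variable {G : Type} [Group G]

/-- left difference of a sequence with values in a group -/
def dd (s : ℤ) (f : ℤ → G) : ℤ → G := fun n => f (n + s) * (f n)⁻¹

/-- `Q Φ m i f`: for all `k ≤ m`, all `k`-fold differences of `f` have values in `Φ (i + k)` -/
def Q (Φ : ℕ → Subgroup G) : ℕ → ℕ → (ℤ → G) → Prop
  | 0, i, f => ∀ n, f n ∈ Φ i
  | m + 1, i, f => (∀ n, f n ∈ Φ i) ∧ ∀ s, Q Φ m (i + 1) (dd s f)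


theorem Q_drop (Φ : ℕ → Subgroup G) : ∀ (m i : ℕ) (f : ℤ → G), Q Φ (m + 1) i f → Q Φ m i f
  | 0, _, _, h => h.1
  | m + 1, i, f, h => ⟨h.1, fun s => Q_drop Φ m (i + 1) (dd s f) (h.2 s)⟩

theorem Q_weak (Φ : ℕ → Subgroup G) (hanti : ∀ i, Φ (i + 1) ≤ Φ i) :
    ∀ (m i : ℕ) (f : ℤ → G), Q Φ m (i + 1) f → Q Φ m i f
  | 0, i, _, h => fun n => hanti i (h n)
  | m + 1, i, f, h => ⟨fun n => hanti i (h.1 n), fun s => Q_weak Φ hanti m (i + 1) (dd s f) (h.2 s)⟩

theorem Q_weakk (Φ : ℕ → Subgroup G) (hanti : ∀ i, Φ (i + 1) ≤ Φ i) (m i : ℕ) (f : ℤ → G) :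
    ∀ k : ℕ, Q Φ m (i + k) f → Q Φ m i f
  | 0, h => h
  | k + 1, h => Q_weakk Φ hanti m i f k (Q_weak Φ hanti m (i + k) f h)

theorem Q_le (Φ : ℕ → Subgroup G) (hanti : ∀ i, Φ (i + 1) ≤ Φ i) (m : ℕ) {i j : ℕ} (hij : i ≤ j)
    (f : ℤ → G) (h : Q Φ m j f) : Q Φ m i f := by
  obtain ⟨k, rfl⟩ := Nat.exists_eq_add_of_le hij
  exact Q_weakk Φ hanti m i f k h

theorem Q_val (Φ : ℕ → Subgroup G) (m i : ℕ) (f : ℤ → G) (h : Q Φ m i f) (n : ℤ) : f n ∈ Φ i := by
  cases m with
  | zero => exact h n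
  | succ m => exact h.1 n

/-- Lazard–Leibman: polynomial sequences are closed under products, inverses and commutators. -/
theorem Q_all (Φ : ℕ → Subgroup G) (hanti : ∀ i, Φ (i + 1) ≤ Φ i)
    (hcomm : ∀ i j, ∀ a ∈ Φ i, ∀ b ∈ Φ j, ⁅a, b⁆ ∈ Φ (i + j)) (m : ℕ) :
    (∀ i f g, Q Φ m i f → Q Φ m i g → Q Φ m i (fun n => f n * g n)) ∧
    (∀ i f, Q Φ m i f → Q Φ m i (fun n => (f n)⁻¹)) ∧
    (∀ i j f g, Q Φ m i f → Q Φ m j g → Q Φ m (i + j) (fun n => ⁅f n, g n⁆)) := by
  induction m with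
  | zero =>
    refine ⟨fun i f g hf hg n => (Φ i).mul_mem (hf n) (hg n), fun i f hf n => (Φ i).inv_mem (hf n),
      fun i j f g hf hg n => hcomm i j _ (hf n) _ (hg n)⟩
  | succ m ih =>
    obtain ⟨ihm, ihi, ihc⟩ := ih
    refine ⟨?_, ?_, ?_⟩
    · intro i f g hf hg
      refine ⟨fun n => (Φ i).mul_mem (hf.1 n) (hg.1 n), fun s => ?_⟩
      have hu := hf.2 s
      have hv := hg.2 s
      have hf' := Q_drop Φ m i f hf
      have hc : Q Φ m (i + 1) (fun n => ⁅f n, dd s g n⁆) :=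
        Q_le Φ hanti m (by omega) _ (ihc i (i + 1) f (dd s g) hf' hv)
      have h1 := ihm (i + 1) _ _ hu hc
      have h2 := ihm (i + 1) _ _ h1 hv
      have he : dd s (fun n => f n * g n) = fun n => (dd s f n * ⁅f n, dd s g n⁆) * dd s g n := by
        funext n
        simp only [dd, commutatorElement_def]
        group
      rw [he]
      exact h2
    · intro i f hf
      refine ⟨fun n => (Φ i).inv_mem (hf.1 n), fun s => ?_⟩
      have hu := hf.2 s
      have hf' := Q_drop Φ m i f hf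
      have hui := ihi (i + 1) _ hu
      have hfi := ihi i _ hf'
      have hc : Q Φ m (i + 1) (fun n => ⁅(f n)⁻¹, (dd s f n)⁻¹⁆) :=
        Q_le Φ hanti m (by omega) _ (ihc i (i + 1) _ _ hfi hui)
      have h1 := ihm (i + 1) _ _ hc hui
      have he : dd s (fun n => (f n)⁻¹) = fun n => ⁅(f n)⁻¹, (dd s f n)⁻¹⁆ * (dd s f n)⁻¹ := by
        funext n
        simp only [dd, commutatorElement_def]
        group
      rw [he]
      exact h1
    · intro i j f g hf hg
      refine ⟨fun n => hcomm i j _ (hf.1 n) _ (hg.1 n), fun s => ?_⟩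
      have hu := hf.2 s
      have hv := hg.2 s
      have hf' := Q_drop Φ m i f hf
      have hg' := Q_drop Φ m j g hg
      have hvj := Q_weak Φ hanti m j _ hv
      have hvg := ihm j _ _ hvj hg'
      have hfvg := ihc i j _ _ hf' hvg
      have hfg := ihc i j _ _ hf' hg'
      have huvg := ihc (i + 1) j _ _ hu hvg
      have t1 : Q Φ m (i + j + 1) (fun n => ⁅dd s f n, ⁅f n, dd s g n * g n⁆⁆) :=
        Q_le Φ hanti m (by omega) _ (ihc (i + 1) (i + j) _ _ hu hfvg)
      have t2 : Q Φ m (i + j + 1) (fun n => ⁅f n, dd s g n⁆) :=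
        Q_le Φ hanti m (by omega) _ (ihc i (j + 1) _ _ hf' hv)
      have t3 : Q Φ m (i + j + 1) (fun n => ⁅dd s g n, ⁅f n, g n⁆⁆) :=
        Q_le Φ hanti m (by omega) _ (ihc (j + 1) (i + j) _ _ hv hfg)
      have t4 : Q Φ m (i + j + 1) (fun n => ⁅⁅f n, g n⁆, ⁅dd s f n, dd s g n * g n⁆⁆) :=
        Q_le Φ hanti m (by omega) _ (ihc (i + j) (i + 1 + j) _ _ hfg huvg)
      have t5 : Q Φ m (i + j + 1) (fun n => ⁅dd s f n, dd s g n * g n⁆) :=
        Q_le Φ hanti m (by omega) _ huvg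
      have h := ihm _ _ _ (ihm _ _ _ (ihm _ _ _ (ihm _ _ _ t1 t2) t3) t4) t5
      have he : dd s (fun n => ⁅f n, g n⁆) = fun n => (((⁅dd s f n, ⁅f n, dd s g n * g n⁆⁆ *
          ⁅f n, dd s g n⁆) * ⁅dd s g n, ⁅f n, g n⁆⁆) *
          ⁅⁅f n, g n⁆, ⁅dd s f n, dd s g n * g n⁆⁆) * ⁅dd s f n, dd s g n * g n⁆ := by
        funext n
        simp only [dd, commutatorElement_def]
        group
      rw [he]
      exact h


/-- all `m`-fold differences are trivial -/
def RR : ℕ → (ℤ → G) → Prop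
  | 0, f => ∀ n, f n = 1
  | m + 1, f => ∀ s, RR m (dd s f)

theorem dd_one_const {f : ℤ → G} {c : G} (h : ∀ n, dd 1 f n = c) : ∀ n : ℤ, f n = c ^ n * f 0 := by
  have h1 : ∀ n, f (n + 1) = c * f n := by
    intro n
    have := h n
    unfold dd at this
    rw [← this]
    group
  intro n
  induction n using Int.induction_on with
  | zero => simp
  | succ k ih =>
    rw [h1, ih, ← mul_assoc]
    congr 1
    rw [add_comm, zpow_add, zpow_one]
  | pred k ih =>
    have h2 := h1 (-(k : ℤ) - 1)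
    rw [sub_add_cancel] at h2
    rw [h2] at ih
    have h3 : f (-(k : ℤ) - 1) = c⁻¹ * (c ^ (-(k : ℤ)) * f 0) := by
      rw [← ih]
      group
    rw [h3, ← mul_assoc]
    congr 1
    have : (-(k : ℤ) - 1) = -1 + -(k : ℤ) := by ring
    rw [this, zpow_add, zpow_neg_one]

theorem periodic_const (htf : ∀ g : G, ∀ n : ℕ, 0 < n → g ^ n = 1 → g = 1) (D : ℕ) :
    ∀ (f : ℤ → G) (_ : RR D f) (r : ℕ) (_ : 0 < r) (_ : ∀ n : ℤ, f (n + r) = f n),
      ∀ n, f n = f 0 := by
  induction D with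
  | zero =>
    intro f hR r hr hp n
    have h : ∀ n, f n = 1 := hR
    rw [h, h]
  | succ D ih =>
    intro f hR r hr hp n
    have h1 := ih (dd 1 f) (hR 1) r hr (by
      intro n
      unfold dd
      rw [hp n]
      have : n + (r : ℤ) + 1 = (n + 1) + (r : ℤ) := by ring
      rw [this, hp (n + 1)])
    have h2 := dd_one_const h1
    have h3 := hp 0
    rw [zero_add, h2 (r : ℤ)] at h3
    have h4 : (dd 1 f 0) ^ (r : ℤ) = 1 := by
      have := congrArg (fun x => x * (f 0)⁻¹) h3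
      simpa using this
    rw [zpow_natCast] at h4
    have h5 := htf _ r hr h4
    rw [h2 n, h5]
    simp

theorem zeros_init (D : ℕ) : ∀ (F : ℤ → G) (_ : RR D F) (_ : ∀ j : ℕ, j < D → F j = 1),
    ∀ n, F n = 1 := by
  induction D with
  | zero =>
    intro F hR _
    exact hR
  | succ D ih =>
    intro F hR h0 n
    have h1 := ih (dd 1 F) (hR 1) (by
      intro j hj
      unfold dd
      have e1 := h0 j (by omega)
      have e2 := h0 (j + 1) (by omega)
      push_cast at e2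
      rw [e1, e2]
      simp)
    have h2 := dd_one_const h1
    rw [h2 n]
    have e0 := h0 0 (by omega)
    simp only [Nat.cast_zero] at e0
    rw [e0]
    simp

theorem RR_dilate (r : ℕ) (D : ℕ) : ∀ (f : ℤ → G) (_ : RR D f), RR D (fun i : ℤ => f (r * i)) := by
  induction D with
  | zero =>
    intro f hR n
    exact hR _
  | succ D ih =>
    intro f hR s
    have h1 := ih (dd (r * s) f) (hR (r * s))
    have h2 : (fun i : ℤ => dd ((r : ℤ) * s) f (r * i)) = dd s (fun i : ℤ => f (r * i)) := by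
      funext i
      unfold dd
      simp only [mul_add]
    rw [h2] at h1
    exact h1

/-- a polynomial sequence in a torsion-free group which is trivial on all multiples of `r` is trivial -/
theorem zeros_mul (htf : ∀ g : G, ∀ n : ℕ, 0 < n → g ^ n = 1 → g = 1) (D : ℕ) (f : ℤ → G) (hR : RR D f)
    (r : ℕ) (hr : 0 < r) (h0 : ∀ j : ℤ, f (r * j) = 1) : ∀ n, f n = 1 := by
  induction D generalizing f with
  | zero => exact hR
  | succ D ih =>
    have h1 := ih (dd r f) (hR r) (by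
      intro j
      unfold dd
      have e1 := h0 j
      have e2 := h0 (j + 1)
      rw [mul_add, mul_one] at e2
      rw [e1, e2]
      simp)
    have h2 : ∀ n : ℤ, f (n + r) = f n := by
      intro n
      have := h1 n
      unfold dd at this
      exact mul_inv_eq_one.1 this
    intro n
    rw [periodic_const htf (D + 1) f hR r hr h2 n]
    have := h0 0
    rwa [mul_zero] at this

/-- a polynomial sequence of degree `< D` in a torsion-free group which is trivial at `0, r, …, r (D-1)` is trivial -/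
theorem zeros_few (htf : ∀ g : G, ∀ n : ℕ, 0 < n → g ^ n = 1 → g = 1) (D : ℕ) (f : ℤ → G) (hR : RR D f)
    (r : ℕ) (hr : 0 < r) (h0 : ∀ j : ℕ, j < D → f (r * j) = 1) : ∀ n, f n = 1 := by
  refine zeros_mul htf D f hR r hr ?_
  exact zeros_init D (fun i : ℤ => f (r * i)) (RR_dilate r D f hR) h0

end Pool.Agent.Helper28.LCN
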